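import Mathlib

set_option autoImplicit false

namespace Pool.Agent.Y897.ST

open Polynomial IntermediateField

theorem minpoly_of_int (P : ℤ[X]) (hP : Irreducible (P.map (Int.castRingHom ℚ))) (β : ℝ)
    (h : aeval β P = 0) :
    minpoly ℚ β = P.map (Int.castRingHom ℚ) * C ((P.leadingCoeff : ℚ)⁻¹) := by
  have h1 : aeval β (P.map (Int.castRingHom ℚ)) = 0 := by
    have : (Int.castRingHom ℚ) = algebraMap ℤ ℚ := rfl
    rw [this, aeval_map_algebraMap]
    exact h
  have h2 := minpoly.eq_of_irreducible hP h1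
  rw [← h2, leadingCoeff_map_of_injective (RingHom.injective_int _)]
  simp

theorem isIntegral_of_int (P : ℤ[X]) (hP : Irreducible (P.map (Int.castRingHom ℚ))) (β : ℝ)
    (h : aeval β P = 0) : IsIntegral ℚ β := by
  have h1 : aeval β (P.map (Int.castRingHom ℚ)) = 0 := by
    have : (Int.castRingHom ℚ) = algebraMap ℤ ℚ := rfl
    rw [this, aeval_map_algebraMap]
    exact h
  have h2 : IsAlgebraic ℚ β := ⟨_, hP.ne_zero, h1⟩
  exact h2.isIntegral

theorem minpoly_natDegree (P : ℤ[X]) (hP : Irreducible (P.map (Int.castRingHom ℚ))) (β : ℝ)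
    (h : aeval β P = 0) : (minpoly ℚ β).natDegree = P.natDegree := by
  have hl : (P.leadingCoeff : ℚ) ≠ 0 := by
    have h0 : P ≠ 0 := by
      rintro rfl
      simp at hP
    exact_mod_cast leadingCoeff_ne_zero.mpr h0
  rw [minpoly_of_int P hP β h, natDegree_mul_C (inv_ne_zero hl),
    natDegree_map_eq_of_injective (RingHom.injective_int _)]

theorem minpoly_coeff_zero (P : ℤ[X]) (hP : Irreducible (P.map (Int.castRingHom ℚ))) (β : ℝ)
    (h : aeval β P = 0) : (minpoly ℚ β).coeff 0 = (P.coeff 0 : ℚ) / (P.leadingCoeff : ℚ) := by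
  rw [minpoly_of_int P hP β h, coeff_mul_C, coeff_map]
  simp [div_eq_mul_inv]

section general

variable {F E : Type} [Field F] [Field E] [Algebra F E]

/-- If the degree of `α` is prime to `q !`, then `α` and `α ^ q` generate the same field. -/
theorem adjoin_pow_eq (α : E) (hα : IsIntegral F α) (q : ℕ) (hq : 1 ≤ q)
    (hcop : Nat.Coprime (minpoly F α).natDegree q.factorial) :
    F⟮α ^ q⟯ = F⟮α⟯ := by
  have hβ : IsIntegral F (α ^ q) := hα.pow q
  have hle : F⟮α ^ q⟯ ≤ F⟮α⟯ := by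
    rw [adjoin_simple_le_iff]
    exact pow_mem (mem_adjoin_simple_self F α) q
  -- the degree of `α` over the smaller field
  have hαL : IsIntegral F⟮α ^ q⟯ α := hα.tower_top
  have hdeg : (minpoly F⟮α ^ q⟯ α).natDegree ≤ q := by
    set b : F⟮α ^ q⟯ := ⟨α ^ q, mem_adjoin_simple_self F (α ^ q)⟩ with hb
    have h1 : aeval α (X ^ q - C b : (F⟮α ^ q⟯)[X]) = 0 := by
      rw [map_sub, map_pow, aeval_X, aeval_C]
      simp [hb]
    have h2 := natDegree_le_natDegree (minpoly.degree_le_of_ne_zero F⟮α ^ q⟯ α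
      (X_pow_sub_C_ne_zero (by omega) b) h1)
    rwa [natDegree_X_pow_sub_C] at h2
  have hfr : Module.finrank F⟮α ^ q⟯ (F⟮α ^ q⟯)⟮α⟯ = (minpoly F⟮α ^ q⟯ α).natDegree :=
    adjoin.finrank hαL
  have htow : Module.finrank F F⟮α ^ q⟯ * Module.finrank F⟮α ^ q⟯ (F⟮α ^ q⟯)⟮α⟯ =
      Module.finrank F (F⟮α ^ q⟯)⟮α⟯ := Module.finrank_mul_finrank F F⟮α ^ q⟯ (F⟮α ^ q⟯)⟮α⟯
  have hres : ((F⟮α ^ q⟯)⟮α⟯).restrictScalars F = F⟮α⟯ := by
    rw [adjoin_simple_adjoin_simple]
    apply le_antisymm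
    · rw [adjoin_le_iff]
      rintro x (hx | hx)
      · rw [hx]
        exact pow_mem (mem_adjoin_simple_self F α) q
      · rw [Set.mem_singleton_iff] at hx
        rw [hx]
        exact mem_adjoin_simple_self F α
    · rw [adjoin_simple_le_iff]
      exact subset_adjoin F _ (Set.mem_insert_of_mem _ rfl)
  have hfr2 : Module.finrank F (F⟮α ^ q⟯)⟮α⟯ = Module.finrank F F⟮α⟯ := by
    rw [← hres]
    rfl
  have hfr3 : Module.finrank F F⟮α⟯ = (minpoly F α).natDegree := adjoin.finrank hα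
  have hpos : 0 < (minpoly F⟮α ^ q⟯ α).natDegree := minpoly.natDegree_pos hαL
  have hone : (minpoly F⟮α ^ q⟯ α).natDegree = 1 := by
    apply Nat.eq_one_of_dvd_coprimes hcop
    · rw [← hfr3, ← hfr2, ← htow, hfr]
      exact dvd_mul_left _ _
    · exact Nat.dvd_factorial hpos hdeg
  have : FiniteDimensional F F⟮α⟯ := adjoin.finiteDimensional hα
  apply eq_of_le_of_finrank_eq hle
  rw [← hfr2, ← htow, hfr, hone, mul_one]

theorem norm_gen (K : IntermediateField F E) (β : E) (hβ : IsIntegral F β) (hF : K = F⟮β⟯)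
    (hm : β ∈ K) :
    Algebra.norm F (⟨β, hm⟩ : K) = (-1) ^ (minpoly F β).natDegree * (minpoly F β).coeff 0 := by
  subst hF
  have h1 := Algebra.PowerBasis.norm_gen_eq_coeff_zero_minpoly (adjoin.powerBasis hβ)
  rw [adjoin.powerBasis_gen, adjoin.powerBasis_dim, minpoly_gen] at h1
  exact h1

/-- The constant coefficients of the minimal polynomials of `α` and `α ^ q`. -/
theorem coeff_zero_pow' (α : E) (hα : IsIntegral F α) (q : ℕ) (hq : 1 ≤ q)
    (hcop : Nat.Coprime (minpoly F α).natDegree q.factorial) :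
    (minpoly F (α ^ q)).natDegree = (minpoly F α).natDegree ∧
    (-1) ^ (minpoly F α).natDegree * (minpoly F (α ^ q)).coeff 0 =
      ((-1) ^ (minpoly F α).natDegree * (minpoly F α).coeff 0) ^ q := by
  have heq := adjoin_pow_eq α hα q hq hcop
  have hβ : IsIntegral F (α ^ q) := hα.pow q
  have hdeg : (minpoly F (α ^ q)).natDegree = (minpoly F α).natDegree := by
    rw [← adjoin.finrank hα, ← adjoin.finrank hβ, heq]
  refine ⟨hdeg, ?_⟩
  have hm : α ∈ F⟮α⟯ := mem_adjoin_simple_self F α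
  have hm2 : α ^ q ∈ F⟮α⟯ := pow_mem hm q
  have h1 := norm_gen F⟮α⟯ α hα rfl hm
  have h2 := norm_gen F⟮α⟯ (α ^ q) hβ heq.symm hm2
  have h3 : (⟨α ^ q, hm2⟩ : F⟮α⟯) = (⟨α, hm⟩ : F⟮α⟯) ^ q := rfl
  rw [h3, map_pow, h1, hdeg] at h2
  exact h2.symm

end general

theorem coeff_zero_pow (α : ℝ) (hα : IsIntegral ℚ α) (q : ℕ) (hq : 1 ≤ q)
    (hcop : Nat.Coprime (minpoly ℚ α).natDegree q.factorial) :
    (minpoly ℚ (α ^ q)).natDegree = (minpoly ℚ α).natDegree ∧
    |(minpoly ℚ (α ^ q)).coeff 0| = |(minpoly ℚ α).coeff 0| ^ q := by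
  obtain ⟨h1, h2⟩ := coeff_zero_pow' α hα q hq hcop
  refine ⟨h1, ?_⟩
  have h4 := congrArg abs h2
  rw [mul_pow, abs_mul, abs_mul, abs_pow, abs_pow, abs_pow, abs_pow, abs_neg, abs_one, one_pow,
    one_pow, one_mul, one_mul] at h4
  exact h4

/-- The integral form: `α` a root of `S`, `α ^ q` a root of `P`, both irreducible. -/
theorem int_relation (S P : ℤ[X]) (hS : Irreducible (S.map (Int.castRingHom ℚ)))
    (hP : Irreducible (P.map (Int.castRingHom ℚ))) (α : ℝ) (h1 : aeval α S = 0) (q : ℕ)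
    (hq : 1 ≤ q) (h2 : aeval (α ^ q) P = 0) (hcop : Nat.Coprime S.natDegree q.factorial) :
    P.natDegree = S.natDegree ∧
      (P.coeff 0).natAbs * S.leadingCoeff.natAbs ^ q =
        P.leadingCoeff.natAbs * (S.coeff 0).natAbs ^ q := by
  have hα := isIntegral_of_int S hS α h1
  have e1 := minpoly_natDegree S hS α h1
  have e2 := minpoly_natDegree P hP _ h2
  obtain ⟨h3, h4⟩ := coeff_zero_pow α hα q hq (by rw [e1]; exact hcop)
  refine ⟨by rw [← e2, h3, e1], ?_⟩
  rw [minpoly_coeff_zero S hS α h1, minpoly_coeff_zero P hP _ h2, abs_div, abs_div, div_pow] at h4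
  have hlS : (0 : ℚ) < |(S.leadingCoeff : ℚ)| := by
    have h0 : S ≠ 0 := by rintro rfl; simp at hS
    exact abs_pos.mpr (by exact_mod_cast leadingCoeff_ne_zero.mpr h0)
  have hlP : (0 : ℚ) < |(P.leadingCoeff : ℚ)| := by
    have h0 : P ≠ 0 := by rintro rfl; simp at hP
    exact abs_pos.mpr (by exact_mod_cast leadingCoeff_ne_zero.mpr h0)
  rw [div_eq_div_iff hlP.ne' (by positivity)] at h4
  have h5 : ((((P.coeff 0).natAbs * S.leadingCoeff.natAbs ^ q : ℕ) : ℤ) : ℚ) =
      (((P.leadingCoeff.natAbs * (S.coeff 0).natAbs ^ q : ℕ) : ℤ) : ℚ) := by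
    push_cast
    rw [mul_comm (|(P.leadingCoeff : ℚ)|)]
    exact h4
  exact_mod_cast h5

end Pool.Agent.Y897.ST
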