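import Mathlib
import Pool.Agent.Y897.ST.Alg

set_option autoImplicit false

namespace Pool.Agent.Y897.ST

open Polynomial IntermediateField

theorem ratmap (P : ℤ[X]) : P.map (Int.castRingHom ℚ) = P.map (algebraMap ℤ ℚ) := rfl

theorem aeval_ratmap {A : Type} [CommRing A] [Algebra ℚ A] (P : ℤ[X]) (x : A) :
    aeval x (P.map (Int.castRingHom ℚ)) = aeval x P := by
  rw [ratmap, aeval_map_algebraMap]

/-- `α` is a polynomial in `α ^ q`. -/
theorem exists_poly (α : ℝ) (hα : IsIntegral ℚ α) (q : ℕ) (hq : 1 ≤ q)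
    (hcop : Nat.Coprime (minpoly ℚ α).natDegree q.factorial) :
    ∃ Q : ℚ[X], aeval (α ^ q) Q = α := by
  have h1 := adjoin_pow_eq α hα q hq hcop
  have h2 : α ∈ ℚ⟮α ^ q⟯.toSubalgebra := by
    rw [h1]
    exact mem_adjoin_simple_self ℚ α
  rw [adjoin_simple_toSubalgebra_of_isAlgebraic (hα.pow q).isAlgebraic,
    Algebra.adjoin_singleton_eq_range_aeval] at h2
  obtain ⟨Q, hQ⟩ := h2
  exact ⟨Q, hQ⟩

/-- Every root of `P` is the power of a root of `S`. -/
theorem pow_surj (S P : ℤ[X]) (hS : Irreducible (S.map (Int.castRingHom ℚ)))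
    (hP : Irreducible (P.map (Int.castRingHom ℚ))) (α : ℝ) (h1 : aeval α S = 0) (q : ℕ)
    (hq : 1 ≤ q) (h2 : aeval (α ^ q) P = 0) (hcop : Nat.Coprime S.natDegree q.factorial)
    (γ : ℂ) (hγ : aeval γ P = 0) : ∃ β : ℂ, aeval β S = 0 ∧ β ^ q = γ := by
  have hα := isIntegral_of_int S hS α h1
  have e1 := minpoly_natDegree S hS α h1
  obtain ⟨Q, hQ⟩ := exists_poly α hα q hq (by rw [e1]; exact hcop)
  have key : ∀ R : ℚ[X], aeval (α ^ q) R = 0 → aeval γ R = 0 := by
    intro R hR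
    have h3 := minpoly.dvd ℚ (α ^ q) hR
    rw [minpoly_of_int P hP _ h2] at h3
    obtain ⟨T, hT⟩ := h3
    rw [hT, map_mul, map_mul, aeval_ratmap, hγ, zero_mul, zero_mul]
  refine ⟨aeval γ Q, ?_, ?_⟩
  · have h4 := key ((S.map (Int.castRingHom ℚ)).comp Q) (by
      rw [aeval_comp, hQ, aeval_ratmap, h1])
    rw [aeval_comp, aeval_ratmap] at h4
    exact h4
  · have h4 := key (Q ^ q - X) (by
      rw [map_sub, map_pow, hQ, aeval_X, sub_self])
    rw [map_sub, map_pow, aeval_X, sub_eq_zero] at h4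
    exact h4

theorem aroots_props (P : ℤ[X]) (hP : Irreducible (P.map (Int.castRingHom ℚ))) :
    (P.aroots ℂ).Nodup ∧ (P.aroots ℂ).toFinset.card = P.natDegree := by
  have hsep : (P.map (Int.castRingHom ℚ)).Separable := hP.separable
  have h0 : P.map (algebraMap ℤ ℂ) = (P.map (Int.castRingHom ℚ)).map (algebraMap ℚ ℂ) := by
    rw [ratmap, Polynomial.map_map]
    rfl
  have hsep2 : (P.map (algebraMap ℤ ℂ)).Separable := by
    rw [h0]
    exact hsep.map
  have hnd : (P.aroots ℂ).Nodup := nodup_roots hsep2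
  refine ⟨hnd, ?_⟩
  rw [Multiset.toFinset_card_of_nodup hnd, aroots, ← (IsAlgClosed.splits _).natDegree_eq_card_roots,
    natDegree_map_eq_of_injective (RingHom.injective_int _)]

theorem aeval_eq_prod (P : ℤ[X]) (hP : Irreducible (P.map (Int.castRingHom ℚ))) (x : ℂ) :
    aeval x P = (P.leadingCoeff : ℂ) * ∏ γ ∈ (P.aroots ℂ).toFinset, (x - γ) := by
  obtain ⟨hnd, _⟩ := aroots_props P hP
  have h1 := (IsAlgClosed.splits (P.map (algebraMap ℤ ℂ))).eq_prod_roots
  have h2 : aeval x P = eval x (P.map (algebraMap ℤ ℂ)) := (eval_map_algebraMap P x).symm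
  have h3 : ∏ γ ∈ (P.aroots ℂ).toFinset, (x - γ) =
      ((P.aroots ℂ).map (fun γ => x - γ)).prod := by
    rw [← Finset.prod_map_val, Multiset.toFinset_val, Multiset.dedup_eq_self.mpr hnd]
  rw [h2, h1, eval_mul, eval_C, h3,
    leadingCoeff_map_of_injective (RingHom.injective_int _), eval_multiset_prod, Multiset.map_map]
  simp [aroots]

theorem mem_aroots_iff (P : ℤ[X]) (hP : P ≠ 0) (x : ℂ) :
    x ∈ (P.aroots ℂ).toFinset ↔ aeval x P = 0 := by
  rw [Multiset.mem_toFinset, mem_aroots]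
  simp [hP]

/-- The product formula for the polynomial of the power. -/
theorem pow_formula (S P : ℤ[X]) (hS : Irreducible (S.map (Int.castRingHom ℚ)))
    (hP : Irreducible (P.map (Int.castRingHom ℚ))) (α : ℝ) (h1 : aeval α S = 0) (q : ℕ)
    (hq : 1 ≤ q) (h2 : aeval (α ^ q) P = 0) (hcop : Nat.Coprime S.natDegree q.factorial)
    (hdvd : ∀ β : ℂ, aeval β S = 0 → aeval (β ^ q) P = 0) (x : ℂ) :
    aeval x P = (P.leadingCoeff : ℂ) * ∏ β ∈ (S.aroots ℂ).toFinset, (x - β ^ q) := by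
  classical
  have hS0 : S ≠ 0 := by rintro rfl; simp at hS
  have hP0 : P ≠ 0 := by rintro rfl; simp at hP
  have himg : (S.aroots ℂ).toFinset.image (fun β => β ^ q) = (P.aroots ℂ).toFinset := by
    ext γ
    rw [Finset.mem_image, mem_aroots_iff P hP0]
    constructor
    · rintro ⟨β, hβ, rfl⟩
      exact hdvd β ((mem_aroots_iff S hS0 β).mp hβ)
    · intro hγ
      obtain ⟨β, hβ, hβq⟩ := pow_surj S P hS hP α h1 q hq h2 hcop γ hγ
      exact ⟨β, (mem_aroots_iff S hS0 β).mpr hβ, hβq⟩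
  have hdeg := (int_relation S P hS hP α h1 q hq h2 hcop).1
  have hcard : ((S.aroots ℂ).toFinset.image (fun β => β ^ q)).card =
      (S.aroots ℂ).toFinset.card := by
    rw [himg, (aroots_props P hP).2, (aroots_props S hS).2, hdeg]
  have hinj := Finset.card_image_iff.mp hcard
  rw [aeval_eq_prod P hP x, ← himg, Finset.prod_image hinj]

/-- The cofactor of `S` in `P(X ^ q)`. -/
theorem cofactor_formula (S P G : ℤ[X]) (hS : Irreducible (S.map (Int.castRingHom ℚ)))
    (hP : Irreducible (P.map (Int.castRingHom ℚ))) (α : ℝ) (h1 : aeval α S = 0) (q : ℕ)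
    (hq : 1 ≤ q) (hcop : Nat.Coprime S.natDegree q.factorial)
    (hG : expand ℤ q P = S * G) (x : ℂ) (hx : aeval x S ≠ 0) :
    aeval x G * (S.leadingCoeff : ℂ) = (P.leadingCoeff : ℂ) *
      ∏ β ∈ (S.aroots ℂ).toFinset, ∑ i ∈ Finset.range q, x ^ i * β ^ (q - 1 - i) := by
  have h2 : aeval (α ^ q) P = 0 := by
    rw [← expand_aeval, hG, map_mul, h1, zero_mul]
  have hdvd : ∀ β : ℂ, aeval β S = 0 → aeval (β ^ q) P = 0 := by
    intro β hβ
    rw [← expand_aeval, hG, map_mul, hβ, zero_mul]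
  have h3 := pow_formula S P hS hP α h1 q hq h2 hcop hdvd (x ^ q)
  have h4 : aeval (x ^ q) P = aeval x S * aeval x G := by
    rw [← expand_aeval, hG, map_mul]
  have h5 := aeval_eq_prod S hS x
  have h6 : ∏ β ∈ (S.aroots ℂ).toFinset, (x ^ q - β ^ q) =
      (∏ β ∈ (S.aroots ℂ).toFinset, ∑ i ∈ Finset.range q, x ^ i * β ^ (q - 1 - i)) *
        ∏ β ∈ (S.aroots ℂ).toFinset, (x - β) := by
    rw [← Finset.prod_mul_distrib]
    refine Finset.prod_congr rfl (fun β _ => ?_)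
    exact (geom_sum₂_mul x β q).symm
  rw [h4, h6] at h3
  apply mul_left_cancel₀ hx
  calc aeval x S * (aeval x G * (S.leadingCoeff : ℂ))
      = (S.leadingCoeff : ℂ) * (aeval x S * aeval x G) := by ring
    _ = (S.leadingCoeff : ℂ) * ((P.leadingCoeff : ℂ) *
        ((∏ β ∈ (S.aroots ℂ).toFinset, ∑ i ∈ Finset.range q, x ^ i * β ^ (q - 1 - i)) *
        ∏ β ∈ (S.aroots ℂ).toFinset, (x - β))) := by rw [h3]
    _ = ((S.leadingCoeff : ℂ) * ∏ β ∈ (S.aroots ℂ).toFinset, (x - β)) *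
        ((P.leadingCoeff : ℂ) *
        ∏ β ∈ (S.aroots ℂ).toFinset, ∑ i ∈ Finset.range q, x ^ i * β ^ (q - 1 - i)) := by ring
    _ = _ := by rw [← h5]

end Pool.Agent.Y897.ST
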