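import Mathlib
import Pool.Agent.Helper35.TSqMain
import Pool.Agent.Y897.ST.Roots

set_option autoImplicit false

namespace Pool.Agent.Y897.ST

open Polynomial Pool.Agent.Helper35

theorem ht_expandq (q : ℕ) (hq : 0 < q) (P : ℤ[X]) : ht (expand ℤ q P) = ht P := by
  apply le_antisymm
  · apply ht_le_of
    intro i
    rw [coeff_expand hq]
    by_cases h : q ∣ i
    · rw [if_pos h]; exact natAbs_coeff_le_ht P _
    · rw [if_neg h]; simp
  · apply ht_le_of
    intro i
    have h := natAbs_coeff_le_ht (expand ℤ q P) (q * i)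
    rw [coeff_expand hq, if_pos (dvd_mul_right q i)] at h
    have : q * i / q = i := Nat.mul_div_cancel_left i hq
    rw [this] at h
    exact h

variable {e V Mq : ℕ → ℕ} (X : SData e V Mq)

theorem p_ndvd (k : ℕ) : ¬ ((X.p k : ℕ) : ℤ) ∣ (X.S k).coeff 0 := by
  have hp := X.prime k
  have hpp : Prime ((X.p k : ℕ) : ℤ) := Nat.prime_iff_prime_int.mp hp
  intro h0
  have e0 : (X.S k).coeff 0 = ∑ j ∈ Finset.range ((TD (e k)).T.natDegree + 1),
      (TD (e k)).T.coeff j * (X.N k : ℤ) ^ ((TD (e k)).T.natDegree - j) * (-(X.n k)) ^ j := by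
    rw [SData.S, SP, shf, finsetSum_coeff]
    refine Finset.sum_congr rfl (fun j _ => ?_)
    rw [coeff_C_mul]
    congr 1
    rw [coeff_zero_eq_eval_zero]
    simp
  rw [e0, Finset.sum_range_succ] at h0
  have h1 : ((X.p k : ℕ) : ℤ) ∣ ∑ j ∈ Finset.range (TD (e k)).T.natDegree,
      (TD (e k)).T.coeff j * (X.N k : ℤ) ^ ((TD (e k)).T.natDegree - j) * (-(X.n k)) ^ j := by
    apply Finset.dvd_sum
    intro j hj
    have hj' := Finset.mem_range.mp hj
    have h2 : ((X.p k : ℕ) : ℤ) ∣ (X.N k : ℤ) := by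
      have h3 : X.p k ∣ X.N k := dvd_pow_self _ (by have := SData.EA_pos k; omega)
      exact_mod_cast h3
    have h3 : ((X.p k : ℕ) : ℤ) ∣ (X.N k : ℤ) ^ ((TD (e k)).T.natDegree - j) :=
      h2.trans (dvd_pow_self _ (by omega))
    exact Dvd.dvd.mul_right (Dvd.dvd.mul_left h3 _) _
  have h3 := (Int.dvd_iff_dvd_of_dvd_add h0).mp h1
  rw [Nat.sub_self, pow_zero, mul_one] at h3
  rcases hpp.dvd_or_dvd h3 with h4 | h4
  · exact X.plead k h4
  · have := hpp.dvd_of_dvd_pow h4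
    rw [dvd_neg] at this
    exact X.pn k this

theorem N_coprime (k : ℕ) : Nat.Coprime (X.N k) ((X.S k).coeff 0).natAbs := by
  unfold SData.N
  apply Nat.Coprime.pow_left
  rw [(X.prime k).coprime_iff_not_dvd]
  intro h
  exact p_ndvd X k (Int.natCast_dvd.mpr h)

theorem lead_natAbs (k : ℕ) : (X.S k).leadingCoeff.natAbs =
    X.N k ^ (e k + 1) * (TD (e k)).T.leadingCoeff.natAbs := by
  rw [X.lead_S, Int.natAbs_mul, Int.natAbs_pow, Int.natAbs_natCast]

theorem root_pow (q : ℕ) (P : ℤ[X]) (k : ℕ) (hdvd : X.S k ∣ expand ℤ q P) :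
    aeval (X.α k ^ q) P = 0 := by
  obtain ⟨G, hG⟩ := hdvd
  rw [← expand_aeval, hG, map_mul, (X.S_props k).2.2.2.2, zero_mul]

theorem rel (q : ℕ) (hq : 1 ≤ q) (k : ℕ) (hcop : Nat.Coprime (e k + 1) q.factorial) (P : ℤ[X])
    (hP : IrrQ P) (hdvd : X.S k ∣ expand ℤ q P) :
    P.natDegree = e k + 1 ∧ (P.coeff 0).natAbs * (X.S k).leadingCoeff.natAbs ^ q =
      P.leadingCoeff.natAbs * ((X.S k).coeff 0).natAbs ^ q := by
  have h := int_relation (X.S k) P (X.S_props k).1 hP (X.α k) (X.S_props k).2.2.2.2 q hq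
    (root_pow X q P k hdvd) (by rw [(X.S_props k).2.2.1]; exact hcop)
  rw [(X.S_props k).2.2.1] at h
  exact h

theorem N_dvd (q : ℕ) (hq : 1 ≤ q) (k : ℕ) (hcop : Nat.Coprime (e k + 1) q.factorial) (P : ℤ[X])
    (hP : IrrQ P) (hdvd : X.S k ∣ expand ℤ q P) :
    X.N k ^ ((e k + 1) * q) ∣ P.leadingCoeff.natAbs := by
  obtain ⟨_, h⟩ := rel X q hq k hcop P hP hdvd
  have h2 : X.N k ^ ((e k + 1) * q) ∣ P.leadingCoeff.natAbs * ((X.S k).coeff 0).natAbs ^ q := by
    rw [← h, lead_natAbs, mul_pow, ← pow_mul]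
    exact Dvd.dvd.mul_left (dvd_mul_right _ _) _
  have h3 : Nat.Coprime (X.N k ^ ((e k + 1) * q)) (((X.S k).coeff 0).natAbs ^ q) :=
    Nat.Coprime.pow _ _ (N_coprime X k)
  exact h3.dvd_of_dvd_mul_right h2

theorem same_stage (q : ℕ) (hq : 1 ≤ q) (j k : ℕ) (hj : Nat.Coprime (e j + 1) q.factorial)
    (hk : Nat.Coprime (e k + 1) q.factorial) (P : ℤ[X])
    (hP : IrrQ P) (hdj : X.S j ∣ expand ℤ q P) (hdk : X.S k ∣ expand ℤ q P) : j = k := by
  obtain ⟨dj, rj⟩ := rel X q hq j hj P hP hdj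
  obtain ⟨dk, rk⟩ := rel X q hq k hk P hP hdk
  have hee : e j = e k := by omega
  have hlP : 0 < P.leadingCoeff.natAbs := Int.natAbs_pos.mpr (leadingCoeff_ne_zero.mpr hP.ne_zero)
  have hSk : 0 < ((X.S k).coeff 0).natAbs := Int.natAbs_pos.mpr (X.S_coeff_zero k)
  have hP0 : 0 < (P.coeff 0).natAbs := by
    rcases Nat.eq_zero_or_pos (P.coeff 0).natAbs with h | h
    · exfalso
      rw [h, zero_mul] at rk
      have : 0 < P.leadingCoeff.natAbs * ((X.S k).coeff 0).natAbs ^ q := by positivity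
      omega
    · exact h
  have hcross : ((X.S k).leadingCoeff.natAbs * ((X.S j).coeff 0).natAbs) ^ q =
      ((X.S j).leadingCoeff.natAbs * ((X.S k).coeff 0).natAbs) ^ q := by
    rw [mul_pow, mul_pow]
    apply Nat.eq_of_mul_eq_mul_left (Nat.mul_pos hP0 hlP)
    calc (P.coeff 0).natAbs * P.leadingCoeff.natAbs *
          ((X.S k).leadingCoeff.natAbs ^ q * ((X.S j).coeff 0).natAbs ^ q)
        = ((P.coeff 0).natAbs * (X.S k).leadingCoeff.natAbs ^ q) *
          (P.leadingCoeff.natAbs * ((X.S j).coeff 0).natAbs ^ q) := by ring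
      _ = (P.leadingCoeff.natAbs * ((X.S k).coeff 0).natAbs ^ q) *
          ((P.coeff 0).natAbs * (X.S j).leadingCoeff.natAbs ^ q) := by rw [rk, ← rj]
      _ = _ := by ring
  have h1 := Nat.pow_left_injective (by omega : q ≠ 0) hcross
  rw [lead_natAbs, lead_natAbs, hee] at h1
  have hT : 0 < (TD (e k)).T.leadingCoeff.natAbs :=
    Int.natAbs_pos.mpr (leadingCoeff_ne_zero.mpr (TD (e k)).irr.ne_zero)
  have h2 : X.N k ^ (e k + 1) * ((X.S j).coeff 0).natAbs =
      X.N j ^ (e k + 1) * ((X.S k).coeff 0).natAbs := by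
    apply Nat.eq_of_mul_eq_mul_left hT
    calc (TD (e k)).T.leadingCoeff.natAbs * (X.N k ^ (e k + 1) * ((X.S j).coeff 0).natAbs)
        = X.N k ^ (e k + 1) * (TD (e k)).T.leadingCoeff.natAbs * ((X.S j).coeff 0).natAbs := by
          ring
      _ = X.N j ^ (e k + 1) * (TD (e k)).T.leadingCoeff.natAbs * ((X.S k).coeff 0).natAbs := h1
      _ = _ := by ring
  have h3 : X.N k ^ (e k + 1) ∣ X.N j ^ (e k + 1) := by
    have hc : Nat.Coprime (X.N k ^ (e k + 1)) ((X.S k).coeff 0).natAbs :=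
      (N_coprime X k).pow_left _
    apply hc.dvd_of_dvd_mul_right
    rw [← h2]
    exact dvd_mul_right _ _
  have h4 : X.N j ^ (e k + 1) ∣ X.N k ^ (e k + 1) := by
    have hc : Nat.Coprime (X.N j ^ (e k + 1)) ((X.S j).coeff 0).natAbs :=
      (N_coprime X j).pow_left _
    apply hc.dvd_of_dvd_mul_right
    rw [h2]
    exact dvd_mul_right _ _
  have h5 := Nat.dvd_antisymm h4 h3
  have h6 : X.N j = X.N k := Nat.pow_left_injective (by omega : e k + 1 ≠ 0) h5
  have h7 : X.r j = X.r k := by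
    unfold SData.r
    rw [h6, hee]
  exact X.r_strictAnti.injective h7

theorem α_ne (k : ℕ) : X.α k ≠ 0 := by
  intro h0
  have h := (X.S_props k).2.2.2.2
  rw [h0, ← coeff_zero_eq_aeval_zero'] at h
  apply X.S_coeff_zero k
  simpa using h

theorem not_sq_dvd (q : ℕ) (hq : 1 ≤ q) (P : ℤ[X]) (hP : IrrQ P) (k : ℕ) (H : ℤ[X])
    (h : expand ℤ q P = X.S k * (X.S k * H)) : False := by
  have hr := (X.S_props k).2.2.2.2
  have h2 : aeval (X.α k ^ q) P = 0 := root_pow X q P k ⟨_, h⟩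
  have hd := congrArg derivative h
  rw [derivative_expand, derivative_mul] at hd
  have hd2 := congrArg (aeval (X.α k)) hd
  have hrhs : aeval (X.α k) (derivative (X.S k) * (X.S k * H) +
      X.S k * derivative (X.S k * H)) = 0 := by
    rw [map_add, map_mul, map_mul, map_mul, hr]; ring
  rw [hrhs, map_mul, expand_aeval] at hd2
  have hq0 : aeval (X.α k) ((q : ℤ[X]) * Polynomial.X ^ (q - 1)) ≠ 0 := by
    rw [map_mul, map_pow, aeval_X, map_natCast]
    exact mul_ne_zero (by exact_mod_cast (by omega : q ≠ 0)) (pow_ne_zero _ (α_ne X k))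
  have h3 : aeval (X.α k ^ q) (derivative P) = 0 := by
    rcases mul_eq_zero.mp hd2 with h4 | h4
    · exact h4
    · exact absurd h4 hq0
  have hsep : (P.map (Int.castRingHom ℚ)).Separable := Irreducible.separable hP
  have h4 := hsep.aeval_derivative_ne_zero (x := X.α k ^ q) (by rw [aeval_ratmap]; exact h2)
  apply h4
  rw [derivative_map, aeval_ratmap]
  exact h3

theorem split_pow (q : ℕ) (hq : 1 ≤ q) (hcop : ∀ k, Nat.Coprime (e k + 1) q.factorial)
    (P : ℤ[X]) (hP : IrrQ P) (k : ℕ) (G : ℤ[X]) (hG : expand ℤ q P = X.S k * G) (j : ℕ) :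
    ¬ X.S j ∣ G := by
  intro hj
  have h1 : X.S j ∣ expand ℤ q P := by rw [hG]; exact Dvd.dvd.mul_left hj _
  have h2 : X.S k ∣ expand ℤ q P := ⟨G, hG⟩
  have h3 := same_stage X q hq j k (hcop j) (hcop k) P hP h1 h2
  subst h3
  obtain ⟨H, hH⟩ := hj
  exact not_sq_dvd X q hq P hP j H (by rw [hG, ← hH])

end Pool.Agent.Y897.ST
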