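import Mathlib
import Pool.Agent.Y897.ST.Split

set_option autoImplicit false

namespace Pool.Agent.Y897.ST

open Polynomial Pool.Agent.Helper35

/-- The quotient `(x ^ q - y ^ q) / (x - y)`. -/
noncomputable def hh (q : ℕ) (x y : ℂ) : ℂ := ∑ i ∈ Finset.range q, x ^ i * y ^ (q - 1 - i)

theorem hh_mul (q : ℕ) (x y : ℂ) : hh q x y * (x - y) = x ^ q - y ^ q := geom_sum₂_mul x y q

theorem transC (ξ : ℝ) (hξ : Transcendental ℚ ξ) : Transcendental ℚ (ξ : ℂ) := by
  intro h
  apply hξ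
  have h1 : IsAlgebraic ℚ (algebraMap ℝ ℂ ξ) := h
  exact (isAlgebraic_algebraMap_iff (algebraMap ℝ ℂ).injective).mp h1

theorem hh_ne_alg (ξ : ℝ) (hξ : Transcendental ℚ ξ) (q : ℕ) (hq : 1 ≤ q) (β : ℂ)
    (hβ : IsAlgebraic ℚ β) : hh q ξ β ≠ 0 := by
  intro h0
  have h1 := hh_mul q ξ β
  rw [h0, zero_mul] at h1
  apply transC ξ hξ
  apply IsAlgebraic.of_pow (n := q) hq
  rw [sub_eq_zero.mp h1.symm]
  exact hβ.pow q

theorem hh_ne_shift (ξ : ℝ) (hξ : Transcendental ℚ ξ) (q : ℕ) (hq : 1 ≤ q) (δ : ℂ)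
    (hδ : IsAlgebraic ℚ δ) : hh q ξ (ξ + δ) ≠ 0 := by
  have hξ0 : (ξ : ℂ) ≠ 0 := by
    intro h
    apply transC ξ hξ
    rw [h]
    exact isAlgebraic_zero
  intro h0
  by_cases hd : δ = 0
  · rw [hd, add_zero] at h0
    unfold hh at h0
    rw [geom_sum₂_self] at h0
    rcases mul_eq_zero.mp h0 with h | h
    · have : q = 0 := by exact_mod_cast h
      omega
    · exact pow_ne_zero _ hξ0 h
  · have h1 := hh_mul q ξ (ξ + δ)
    rw [h0, zero_mul] at h1
    have h2 : (ξ : ℂ) ^ q = (ξ + δ) ^ q := sub_eq_zero.mp h1.symm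
    obtain ⟨ζ, hζ⟩ : ∃ ζ : ℂ, ζ = (ξ + δ) / ξ := ⟨_, rfl⟩
    have h3 : ζ ^ q = 1 := by
      rw [hζ, div_pow, ← h2, div_self (pow_ne_zero _ hξ0)]
    have h4 : δ = ξ * (ζ - 1) := by
      rw [hζ]
      field_simp
      ring
    have h5 : ζ - 1 ≠ 0 := by
      intro h
      rw [h, mul_zero] at h4
      exact hd h4
    have h6 : (ξ : ℂ) = δ * (ζ - 1)⁻¹ := by
      rw [h4]
      field_simp
    have h7 : IsAlgebraic ℚ ζ := by
      apply IsAlgebraic.of_pow (n := q) hq
      rw [h3]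
      exact isAlgebraic_one
    apply transC ξ hξ
    rw [h6]
    exact hδ.mul (h7.sub isAlgebraic_one).inv

theorem alg_root (P : ℤ[X]) (hP : P ≠ 0) (z : ℂ) (hz : aeval z P = 0) : IsAlgebraic ℚ z := by
  refine ⟨P.map (Int.castRingHom ℚ), ?_, ?_⟩
  · rw [Ne, Polynomial.map_eq_zero_iff (RingHom.injective_int _)]
    exact hP
  · rw [aeval_ratmap]
    exact hz

variable {e V Mq : ℕ → ℕ} (X : SData e V Mq)

theorem aevalC (k : ℕ) (z : ℂ) : aeval z (X.S k) = (X.N k : ℂ) ^ (e k + 1) *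
    aeval (z - (X.n k : ℂ) / (X.N k : ℂ)) (TD (e k)).T := by
  have hR := (X.S_props k).2.2.2.1
  have h1 : (X.S k).map (algebraMap ℤ ℝ) = C ((X.N k : ℝ) ^ (e k + 1)) *
      ((TD (e k)).T.map (algebraMap ℤ ℝ)).comp
        (Polynomial.X - C ((X.n k : ℝ) / (X.N k : ℝ))) := by
    apply Polynomial.funext
    intro r
    rw [eval_mul, eval_C, eval_comp, eval_sub, eval_X, eval_C, eval_map_algebraMap,
      eval_map_algebraMap]
    exact hR r
  have h2 := congrArg (aeval z) h1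
  rw [aeval_map_algebraMap, map_mul, aeval_C, aeval_comp, aeval_map_algebraMap, map_sub, aeval_X,
    aeval_C] at h2
  rw [h2]
  simp

theorem N_ne (k : ℕ) : (X.N k : ℂ) ≠ 0 := by
  have := X.N_pos k
  exact_mod_cast (by omega : X.N k ≠ 0)

theorem prod_roots (k : ℕ) (f : ℂ → ℝ) :
    ∏ β ∈ ((X.S k).aroots ℂ).toFinset, f β =
      ∏ t ∈ ((TD (e k)).T.aroots ℂ).toFinset, f (t + (X.n k : ℂ) / (X.N k : ℂ)) := by
  classical
  have himg : ((TD (e k)).T.aroots ℂ).toFinset.image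
      (fun t => t + (X.n k : ℂ) / (X.N k : ℂ)) = ((X.S k).aroots ℂ).toFinset := by
    ext z
    rw [Finset.mem_image, mem_aroots_iff _ (X.S_irr k).ne_zero, aevalC,
      mul_eq_zero, or_iff_right (pow_ne_zero _ (N_ne X k))]
    constructor
    · rintro ⟨t, ht, rfl⟩
      rw [add_sub_cancel_right]
      exact (mem_aroots_iff _ (TD (e k)).irr.ne_zero t).mp ht
    · intro hz
      exact ⟨z - (X.n k : ℂ) / (X.N k : ℂ),
        (mem_aroots_iff _ (TD (e k)).irr.ne_zero _).mpr hz, sub_add_cancel _ _⟩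
  rw [← himg, Finset.prod_image (fun a _ b _ hab => add_right_cancel hab)]

/-- A sequence of positive numbers with a positive lower bound at infinity. -/
theorem pos_inf (f : ℕ → ℝ) (hf : ∀ k, 0 < f k) (K : ℕ) (c0 : ℝ) (hc0 : 0 < c0)
    (h : ∀ k, K ≤ k → c0 ≤ f k) : ∃ c : ℝ, 0 < c ∧ ∀ k, c ≤ f k := by
  induction K with
  | zero => exact ⟨c0, hc0, fun k => h k (Nat.zero_le k)⟩
  | succ K ih =>
    by_cases hK : c0 ≤ f K
    · apply ih
      intro k hk
      rcases Nat.eq_or_lt_of_le hk with rfl | h1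
      · exact hK
      · exact h k h1
    · -- use the smaller constant
      clear ih
      push Not at hK
      obtain ⟨c1, hc1, hcc1⟩ : ∃ c1 : ℝ, 0 < c1 ∧ ∀ k, k < K + 1 → c1 ≤ f k := by
        clear h hK
        induction K + 1 with
        | zero => exact ⟨1, one_pos, fun k hk => by omega⟩
        | succ L ih =>
          obtain ⟨c, hc, hcc⟩ := ih
          refine ⟨min c (f L), lt_min hc (hf L), fun k hk => ?_⟩
          rcases Nat.lt_succ_iff_lt_or_eq.mp hk with h1 | h1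
          · exact (min_le_left _ _).trans (hcc k h1)
          · rw [h1]; exact min_le_right _ _
      refine ⟨min c0 c1, lt_min hc0 hc1, fun k => ?_⟩
      by_cases hk : k < K + 1
      · exact (min_le_right _ _).trans (hcc1 k hk)
      · exact (min_le_left _ _).trans (h k (by omega))

/-- The product over the roots is bounded below at the stages of one degree. -/
theorem cof_lower (hM : Demand e Mq) (hV : ∀ j, 22 ≤ V j) (q : ℕ) (hq : 1 ≤ q) (j : ℕ)
    (htr : Transcendental ℚ X.ξ) :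
    ∃ c : ℝ, 0 < c ∧ ∀ k, e k = j →
      c ≤ ∏ β ∈ ((X.S k).aroots ℂ).toFinset, ‖hh q X.ξ β‖ := by
  classical
  obtain ⟨F, hF⟩ : ∃ F : ℝ → ℝ, F = fun y : ℝ => ∏ t ∈ ((TD j).T.aroots ℂ).toFinset,
    ‖hh q X.ξ (t + (y : ℂ))‖ := ⟨_, rfl⟩
  have hcont : Continuous F := by
    rw [hF]
    unfold hh
    fun_prop
  have hpos : 0 < F (X.ξ - (TD j).θ) := by
    rw [hF]
    apply Finset.prod_pos
    intro t ht
    have e1 : t + ((X.ξ - (TD j).θ : ℝ) : ℂ) = (X.ξ : ℂ) + (t - ((TD j).θ : ℂ)) := by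
      push_cast
      ring
    rw [e1]
    apply norm_pos_iff.mpr
    apply hh_ne_shift _ htr q hq
    have h1 : IsAlgebraic ℚ t := alg_root _ (TD j).irr.ne_zero t
      ((mem_aroots_iff _ (TD j).irr.ne_zero t).mp ht)
    have h2 : IsAlgebraic ℚ (((TD j).θ : ℝ) : ℂ) := by
      apply alg_root _ (TD j).irr.ne_zero
      have h3 : aeval (algebraMap ℝ ℂ (TD j).θ) (TD j).T = algebraMap ℝ ℂ (aeval (TD j).θ (TD j).T) :=
        aeval_algebraMap_apply ℂ (TD j).θ (TD j).T
      rw [(TD j).root, map_zero] at h3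
      exact h3
    exact h1.sub h2
  have hev : ∀ᶠ y in nhds (X.ξ - (TD j).θ), F (X.ξ - (TD j).θ) / 2 < F y :=
    hcont.continuousAt.eventually (lt_mem_nhds (by linarith))
  obtain ⟨δ, hδ, hball⟩ := Metric.eventually_nhds_iff.mp hev
  obtain ⟨K, hK⟩ := exists_nat_gt (2 / δ)
  obtain ⟨f, hf⟩ : ∃ f : ℕ → ℝ, f = fun k => if e k = j then
    ∏ β ∈ ((X.S k).aroots ℂ).toFinset, ‖hh q X.ξ β‖ else 1 := ⟨_, rfl⟩
  have hfpos : ∀ k, 0 < f k := by
    intro k
    rw [hf]
    dsimp only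
    split_ifs
    · apply Finset.prod_pos
      intro β hβ
      apply norm_pos_iff.mpr
      apply hh_ne_alg _ htr q hq
      exact alg_root _ (X.S_irr k).ne_zero β ((mem_aroots_iff _ (X.S_irr k).ne_zero β).mp hβ)
    · exact one_pos
  have hflow : ∀ k, K + 1 ≤ k → min (F (X.ξ - (TD j).θ) / 2) 1 ≤ f k := by
    intro k hk
    rw [hf]
    dsimp only
    split_ifs with hek
    · refine (min_le_left _ _).trans ?_
      rw [prod_roots X k (fun β => ‖hh q X.ξ β‖), hek]
      have e1 : ((X.n k : ℂ) / (X.N k : ℂ)) = (((X.n k : ℝ) / (X.N k : ℝ) : ℝ) : ℂ) := by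
        push_cast
        rfl
      rw [e1]
      have h1 := X.lo' k
      have h2 := X.hi' k
      have h3 := X.r_pos k
      have h4 : X.r k ≤ 1 / (X.N k : ℝ) := by
        unfold SData.r
        apply one_div_le_one_div_of_le (by have := X.N_one_le k; linarith)
        exact le_self_pow₀ (X.N_one_le k) (SData.dV_ne hV k)
      have h5 : (k : ℝ) ≤ X.N k := by exact_mod_cast X.k_le_N hM k
      have h6 : (K : ℝ) + 1 ≤ k := by exact_mod_cast hk
      have h7 : 2 * X.r k < δ := by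
        have h8 : 2 * (1 / (X.N k : ℝ)) < δ := by
          rw [mul_one_div, div_lt_iff₀ (by linarith [X.N_one_le k])]
          rw [div_lt_iff₀ hδ] at hK
          have : (K : ℝ) ≤ X.N k := by linarith
          calc 2 < (K : ℝ) * δ := hK
            _ ≤ (X.N k : ℝ) * δ := by gcongr
            _ = _ := mul_comm _ _
        linarith
      have h8 : dist ((X.n k : ℝ) / (X.N k : ℝ)) (X.ξ - (TD j).θ) < δ := by
        unfold SData.α at h1 h2
        rw [hek] at h1 h2
        rw [Real.dist_eq, abs_lt]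
        constructor <;> linarith
      have h9 := hball h8
      rw [hF] at h9
      rw [hF]
      exact h9.le
    · exact min_le_right _ _
  obtain ⟨c, hc, hcc⟩ := pos_inf f hfpos (K + 1) _ (lt_min (by linarith) one_pos) hflow
  refine ⟨c, hc, fun k hk => ?_⟩
  have h := hcc k
  rw [hf] at h
  dsimp only at h
  rwa [if_pos hk] at h

end Pool.Agent.Y897.ST
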