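import Mathlib
import Pool.Agent.Y897.ST.Cof

set_option autoImplicit false

namespace Pool.Agent.Y897.ST

open Polynomial Pool.Agent.Helper35

variable {e V Mq : ℕ → ℕ} (X : SData e V Mq)

theorem transc_of (ξ : ℝ) (hne : ∀ P : ℤ[X], P ≠ 0 → aeval ξ P ≠ 0) : Transcendental ℚ ξ := by
  intro hc
  rw [← IsFractionRing.isAlgebraic_iff ℤ ℚ ℝ] at hc
  obtain ⟨P, hP, h0⟩ := hc
  exact hne P hP h0

/-- The value of the cofactor is bounded below. -/
theorem cof_value (q : ℕ) (hq : 1 ≤ q) (hcop : ∀ k, Nat.Coprime (e k + 1) q.factorial)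
    (P : ℤ[X]) (hP : IrrQ P) (k : ℕ) (G : ℤ[X]) (hG : expand ℤ q P = X.S k * G)
    (hS : aeval X.ξ (X.S k) ≠ 0) (c : ℝ)
    (hc : c ≤ ∏ β ∈ ((X.S k).aroots ℂ).toFinset, ‖hh q X.ξ β‖) :
    c ≤ |aeval X.ξ G| * ((TD (e k)).T.leadingCoeff.natAbs : ℝ) := by
  have hr := (X.S_props k).2.2.2.2
  have hval : ∀ R : ℤ[X], aeval (X.ξ : ℂ) R = ((aeval X.ξ R : ℝ) : ℂ) := by
    intro R
    exact aeval_algebraMap_apply ℂ X.ξ R
  have h1 := cofactor_formula (X.S k) P G (X.S_props k).1 hP (X.α k) hr q hq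
    (by rw [(X.S_props k).2.2.1]; exact hcop k) hG (X.ξ : ℂ) (by
      rw [hval]
      exact_mod_cast hS)
  have h2 := congrArg norm h1
  rw [norm_mul, norm_mul, norm_prod, hval, Complex.norm_real, Real.norm_eq_abs] at h2
  have h3 : ‖((X.S k).leadingCoeff : ℂ)‖ = ((X.S k).leadingCoeff.natAbs : ℝ) := by
    rw [Complex.norm_intCast, Nat.cast_natAbs, Int.cast_abs]
  have h4 : ‖(P.leadingCoeff : ℂ)‖ = (P.leadingCoeff.natAbs : ℝ) := by
    rw [Complex.norm_intCast, Nat.cast_natAbs, Int.cast_abs]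
  rw [h3, h4, lead_natAbs] at h2
  have hlP : 0 < P.leadingCoeff.natAbs := Int.natAbs_pos.mpr (leadingCoeff_ne_zero.mpr hP.ne_zero)
  have h5 : X.N k ^ (e k + 1) ≤ P.leadingCoeff.natAbs := by
    have h6 := Nat.le_of_dvd hlP (N_dvd X q hq k (hcop k) P hP ⟨G, hG⟩)
    refine le_trans ?_ h6
    exact Nat.pow_le_pow_right (X.N_pos k) (Nat.le_mul_of_pos_right _ hq)
  have hlPr : (0 : ℝ) < (P.leadingCoeff.natAbs : ℝ) := by exact_mod_cast hlP
  have h5r : (X.N k : ℝ) ^ (e k + 1) ≤ (P.leadingCoeff.natAbs : ℝ) := by exact_mod_cast h5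
  have h6 : (P.leadingCoeff.natAbs : ℝ) * c ≤
      |aeval X.ξ G| * ((P.leadingCoeff.natAbs : ℝ) * ((TD (e k)).T.leadingCoeff.natAbs : ℝ)) := by
    calc (P.leadingCoeff.natAbs : ℝ) * c ≤ (P.leadingCoeff.natAbs : ℝ) *
          ∏ β ∈ ((X.S k).aroots ℂ).toFinset, ‖hh q X.ξ β‖ := by gcongr
      _ = |aeval X.ξ G| *
          ((X.N k ^ (e k + 1) * (TD (e k)).T.leadingCoeff.natAbs : ℕ) : ℝ) := h2.symm
      _ ≤ _ := by
          push_cast
          gcongr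
  have h7 : (P.leadingCoeff.natAbs : ℝ) * c ≤ (P.leadingCoeff.natAbs : ℝ) *
      (|aeval X.ξ G| * ((TD (e k)).T.leadingCoeff.natAbs : ℝ)) := by
    calc _ ≤ _ := h6
      _ = _ := by ring
  exact le_of_mul_le_mul_left h7 hlPr

theorem ne_all (A : ℕ) (hA : 40 ≤ A) (hM : Demand e Mq) (hV : ∀ j, 22 ≤ V j)
    (hVe : ∀ j, V j ≤ A * (j + 2)) : ∀ P : ℤ[X], P ≠ 0 → aeval X.ξ P ≠ 0 := by
  intro P hP h0
  obtain ⟨c, hc, hcc⟩ := X.bound_all hM hV P.natDegree (A * (P.natDegree + 1))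
    (Nat.mul_le_mul_right _ hA)
    (fun j hj => (hVe j).trans (Nat.mul_le_mul_left _ (by omega)))
  have := hcc P hP le_rfl
  rw [h0, abs_zero, zero_mul] at this
  linarith

/-- Polynomials not divisible by any `S_k`. -/
theorem pred_bound (hne : ∀ P : ℤ[X], P ≠ 0 → aeval X.ξ P ≠ 0) (n' : ℕ) :
    ∃ c : ℝ, 0 < c ∧ ∀ P : ℤ[X], (∀ k, ¬ X.S k ∣ P) → P ≠ 0 →
      P.natDegree ≤ n' → c ≤ |aeval X.ξ P| * (ht P : ℝ) ^ (40 * (n' + 1)) := by
  apply general_bound_pred X.ξ n' (40 * (n' + 1)) (fun P => ∀ k, ¬ X.S k ∣ P)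
  · intro a b hab
    exact ⟨fun k hk => hab k (hk.mul_right b), fun k hk => hab k (hk.mul_left a)⟩
  · exact hne
  · intro m' hm' hmn'
    obtain ⟨H0, hH0⟩ := X.irr_main' m' m' le_rfl
    refine ⟨H0, fun P hGP hP hPd hH => ?_⟩
    have hHr : (1 : ℝ) ≤ ht P := by exact_mod_cast ht_pos hP.ne_zero
    rcases hH0 P hP hPd hH with ⟨k, g, _, hg, hPg⟩ | h
    · exact absurd ⟨C g, by rw [hPg, mul_comm]⟩ (hGP k)
    · refine h.trans ?_
      have h3 : (ht P : ℝ) ^ (40 * (m' + 1)) ≤ (ht P : ℝ) ^ (40 * (n' + 1)) :=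
        pow_le_pow_right₀ hHr (by omega)
      gcongr

/-- The bound at the power of `ξ`. -/
theorem bound_pow (q B : ℕ) (hq : 1 ≤ q) (hB : 40 * q ≤ B)
    (hcop : ∀ k, Nat.Coprime (e k + 1) q.factorial) (hM : Demand e Mq) (hV : ∀ j, 22 ≤ V j)
    (hVe : ∀ j, V j = q * B * (j + 2)) (n : ℕ) :
    ∃ c : ℝ, 0 < c ∧ ∀ P : ℤ[X], P ≠ 0 → P.natDegree ≤ n →
      c ≤ |aeval (X.ξ ^ q) P| * (ht P : ℝ) ^ (B * (n + 1) + 1) := by
  have hqB : 40 ≤ q * B := by
    calc 40 ≤ 1 * (40 * q) := by omega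
      _ ≤ q * B := Nat.mul_le_mul hq hB
  have hne := ne_all X (q * B) hqB hM hV (fun j => (hVe j).le)
  have htr := transc_of _ hne
  apply general_bound
  intro m hm hmn
  obtain ⟨c1, hc1, hcc1⟩ := pred_bound X hne (q * m)
  obtain ⟨c2, hc2, hcc2⟩ := cof_lower X hM hV q hq (m - 1) htr
  obtain ⟨lT, hlT⟩ : ∃ lT : ℝ, lT = ((TD (m - 1)).T.leadingCoeff.natAbs : ℝ) := ⟨_, rfl⟩
  have hlT1 : 1 ≤ lT := by
    rw [hlT]
    exact_mod_cast Int.natAbs_pos.mpr (leadingCoeff_ne_zero.mpr (TD (m - 1)).irr.ne_zero)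
  have hCh : 1 ≤ SData.Ch (m - 1) := SData.Ch_one_le _
  obtain ⟨K, hK⟩ : ∃ K : ℝ, K = SData.Ch (m - 1) ^ (q * (B * (m + 1))) := ⟨_, rfl⟩
  have hK0 : 0 < K := by rw [hK]; positivity
  refine ⟨⌈1 / c1⌉₊ + ⌈K * lT / c2⌉₊, fun P hP hPd hH => ?_⟩
  have hH1 : (1 : ℝ) ≤ ht P := by exact_mod_cast ht_pos hP.ne_zero
  have hHc1 : 1 ≤ c1 * ht P := by
    have h1 : 1 / c1 ≤ ht P := (Nat.le_ceil _).trans (by exact_mod_cast (by omega))
    rw [div_le_iff₀ hc1] at h1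
    linarith
  have hHc2 : K * lT ≤ c2 * ht P := by
    have h1 : K * lT / c2 ≤ ht P := (Nat.le_ceil _).trans (by exact_mod_cast (by omega))
    rw [div_le_iff₀ hc2] at h1
    linarith
  have hval : aeval X.ξ (expand ℤ q P) = aeval (X.ξ ^ q) P := expand_aeval q P X.ξ
  by_cases hG : ∀ k, ¬ X.S k ∣ expand ℤ q P
  · have hR0 : expand ℤ q P ≠ 0 := by
      intro h0
      exact hP.ne_zero ((expand_eq_zero (by omega)).mp h0)
    have h1 := hcc1 (expand ℤ q P) hG hR0 (by rw [natDegree_expand, hPd, mul_comm])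
    rw [hval, ht_expandq q (by omega)] at h1
    calc (1 : ℝ) ≤ c1 * ht P := hHc1
      _ ≤ (|aeval (X.ξ ^ q) P| * (ht P : ℝ) ^ (40 * (q * m + 1))) * ht P := by gcongr
      _ = |aeval (X.ξ ^ q) P| * (ht P : ℝ) ^ (40 * (q * m + 1) + 1) := by ring
      _ ≤ _ := by
          have hle : 40 * (q * m + 1) + 1 ≤ B * (n + 1) + 1 := by
            have e1 : 40 * (q * m + 1) ≤ 40 * q * (m + 1) := by nlinarith
            have e2 : 40 * q * (m + 1) ≤ B * (n + 1) := Nat.mul_le_mul hB (by omega)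
            omega
          have : (ht P : ℝ) ^ (40 * (q * m + 1) + 1) ≤ (ht P : ℝ) ^ (B * (n + 1) + 1) :=
            pow_le_pow_right₀ hH1 hle
          gcongr
  · push Not at hG
    obtain ⟨k, G, hG⟩ := hG
    have hdvd : X.S k ∣ expand ℤ q P := ⟨G, hG⟩
    have hdeg := (rel X q hq k (hcop k) P hP hdvd).1
    have hek : e k = m - 1 := by omega
    have hS0 := (X.S_irr k).ne_zero
    obtain ⟨hS, hhS⟩ : ∃ a : ℝ, a = (ht (X.S k) : ℝ) := ⟨_, rfl⟩
    have hS1 : 1 ≤ hS := by rw [hhS]; exact_mod_cast ht_pos hS0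
    -- bound for S_k
    have h1 := X.spec_lower hM hV k 1 one_ne_zero
    rw [C_1, one_mul, ← hhS, hVe, hek] at h1
    -- bound for the cofactor
    have h2 := cof_value X q hq hcop P hP k G hG (hne _ hS0) c2 (hcc2 k hek)
    rw [hek, ← hlT] at h2
    -- heights
    have h3 : hS ^ q ≤ SData.Ch (m - 1) ^ q * ht P := by
      have h4 := X.ht_S_upper hV k
      rw [hek, ← hhS] at h4
      have h5 : hS ^ q ≤ (SData.Ch (m - 1) * (X.N k : ℝ) ^ (m - 1 + 1)) ^ q := by gcongr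
      refine h5.trans ?_
      rw [mul_pow]
      have h6 : ((X.N k : ℝ) ^ (m - 1 + 1)) ^ q ≤ ht P := by
        have h7 := natAbs_coeff_le_ht P P.natDegree
        rw [coeff_natDegree] at h7
        have h8 := Nat.le_of_dvd (Int.natAbs_pos.mpr (leadingCoeff_ne_zero.mpr hP.ne_zero))
          (N_dvd X q hq k (hcop k) P hP hdvd)
        have h9 : (X.N k ^ (m - 1 + 1)) ^ q ≤ ht P := by
          rw [← pow_mul, ← hek]
          exact h8.trans h7
        exact_mod_cast h9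
      gcongr
    -- combination
    have h9 : |aeval (X.ξ ^ q) P| = |aeval X.ξ (X.S k)| * |aeval X.ξ G| := by
      rw [← hval, hG, map_mul, abs_mul]
    have e0 : m - 1 + 2 = m + 1 := by omega
    rw [e0] at h1
    have h11 : hS ^ (q * B * (m + 1)) ≤ K * (ht P : ℝ) ^ (B * (m + 1)) := by
      calc hS ^ (q * B * (m + 1)) = (hS ^ q) ^ (B * (m + 1)) := by
            rw [← pow_mul]; congr 1; ring
        _ ≤ (SData.Ch (m - 1) ^ q * ht P) ^ (B * (m + 1)) := by gcongr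
        _ = _ := by rw [mul_pow, ← pow_mul, hK]
    have h12 : c2 ≤ K * lT * (|aeval (X.ξ ^ q) P| * (ht P : ℝ) ^ (B * (m + 1))) := by
      calc c2 ≤ 1 * (|aeval X.ξ G| * lT) := by rw [one_mul]; exact h2
        _ ≤ (|aeval X.ξ (X.S k)| * hS ^ (q * B * (m + 1))) * (|aeval X.ξ G| * lT) := by gcongr
        _ ≤ (|aeval X.ξ (X.S k)| * (K * (ht P : ℝ) ^ (B * (m + 1)))) *
            (|aeval X.ξ G| * lT) := by gcongr
        _ = _ := by rw [h9]; ring
    have h13 : (K * lT) * 1 ≤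
        (K * lT) * (|aeval (X.ξ ^ q) P| * (ht P : ℝ) ^ (B * (m + 1) + 1)) := by
      calc (K * lT) * 1 ≤ c2 * ht P := by linarith
        _ ≤ (K * lT * (|aeval (X.ξ ^ q) P| * (ht P : ℝ) ^ (B * (m + 1)))) * ht P := by gcongr
        _ = _ := by ring
    have h14 := le_of_mul_le_mul_left h13 (by positivity)
    refine h14.trans ?_
    have : (ht P : ℝ) ^ (B * (m + 1) + 1) ≤ (ht P : ℝ) ^ (B * (n + 1) + 1) := by
      apply pow_le_pow_right₀ hH1
      have : B * (m + 1) ≤ B * (n + 1) := Nat.mul_le_mul_left _ (by omega)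
      omega
    gcongr

end Pool.Agent.Y897.ST
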