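import Mathlib
import Pool.Agent.Y897.ST.BPow

set_option autoImplicit false

namespace Pool.Agent.Y897.ST

open Polynomial Pool.Agent.Helper35 IntermediateField

theorem adjoin_int_mul (γ : ℝ) (a : ℤ) (ha : a ≠ 0) : ℚ⟮(a : ℝ) * γ⟯ = ℚ⟮γ⟯ := by
  have har : (a : ℝ) ≠ 0 := by exact_mod_cast ha
  apply le_antisymm
  · rw [adjoin_simple_le_iff]
    exact mul_mem (intCast_mem _ a) (mem_adjoin_simple_self ℚ γ)
  · rw [adjoin_simple_le_iff]
    have h1 : ((a : ℝ))⁻¹ * ((a : ℝ) * γ) ∈ ℚ⟮(a : ℝ) * γ⟯ :=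
      mul_mem (inv_mem (intCast_mem _ a)) (mem_adjoin_simple_self ℚ _)
    rwa [inv_mul_cancel_left₀ har] at h1

theorem exists_minZ (γ : ℝ) (hγ : IsIntegral ℚ γ) (a : ℤ) (ha : a ≠ 0)
    (hint : IsIntegral ℤ ((a : ℝ) * γ)) :
    ∃ P : ℤ[X], IsMinZ P γ ∧ P.natDegree = (minpoly ℚ γ).natDegree ∧
      P.leadingCoeff.natAbs ≤ a.natAbs ^ P.natDegree := by
  obtain ⟨x, hx⟩ : ∃ x : ℝ, x = (a : ℝ) * γ := ⟨_, rfl⟩
  rw [← hx] at hint
  obtain ⟨f, hf⟩ : ∃ f, f = minpoly ℤ x := ⟨_, rfl⟩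
  have hfm : f.Monic := by rw [hf]; exact minpoly.monic hint
  have hfr : f.map (algebraMap ℤ ℚ) = minpoly ℚ x := by
    rw [hf]; exact (minpoly.isIntegrallyClosed_eq_field_fractions' ℚ hint).symm
  have hxQ : IsIntegral ℚ x := hint.tower_top
  have hdeg : f.natDegree = (minpoly ℚ γ).natDegree := by
    rw [← natDegree_map_eq_of_injective (RingHom.injective_int (algebraMap ℤ ℚ)) f, hfr,
      ← adjoin.finrank hxQ, ← adjoin.finrank hγ, hx, adjoin_int_mul γ a ha]
  obtain ⟨g, hg⟩ : ∃ g, g = f.comp (C a * X) := ⟨_, rfl⟩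
  have hCa : (C a * X : ℤ[X]).natDegree = 1 := natDegree_C_mul_X a ha
  have hgdeg : g.natDegree = f.natDegree := by rw [hg, natDegree_comp, hCa, mul_one]
  have hglc : g.leadingCoeff = a ^ f.natDegree := by
    rw [hg, leadingCoeff_comp (by rw [hCa]; exact one_ne_zero), hfm.leadingCoeff, one_mul,
      leadingCoeff_mul, leadingCoeff_C, leadingCoeff_X, mul_one]
  have hg0 : g ≠ 0 := by
    intro h
    rw [h, leadingCoeff_zero] at hglc
    exact pow_ne_zero _ ha hglc.symm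
  have hgr : aeval γ g = 0 := by
    rw [hg, aeval_comp, map_mul, aeval_C, aeval_X]
    have e1 : (algebraMap ℤ ℝ) a * γ = x := by rw [hx]; rfl
    rw [e1, hf]
    exact minpoly.aeval ℤ x
  have hcont := g.eq_C_content_mul_primPart
  have hc0 : g.content ≠ 0 := by rwa [Ne, content_eq_zero_iff]
  have hPr : aeval γ g.primPart = 0 := by
    rw [hcont, map_mul, aeval_C] at hgr
    rcases mul_eq_zero.mp hgr with h | h
    · exfalso
      apply hc0
      have : ((g.content : ℤ) : ℝ) = 0 := h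
      exact_mod_cast this
    · exact h
  have hprim := g.isPrimitive_primPart
  have hP0 : g.primPart ≠ 0 := hprim.ne_zero
  have hPd : g.primPart.natDegree = (minpoly ℚ γ).natDegree := by
    rw [natDegree_primPart, hgdeg, hdeg]
  have hlc : g.primPart.leadingCoeff.natAbs ≤ a.natAbs ^ g.primPart.natDegree := by
    have h1 := congrArg (fun Q : ℤ[X] => Q.leadingCoeff.natAbs) hcont
    rw [leadingCoeff_mul, leadingCoeff_C, Int.natAbs_mul, hglc, Int.natAbs_pow] at h1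
    rw [natDegree_primPart, hgdeg, h1]
    exact Nat.le_mul_of_pos_left _ (Int.natAbs_pos.mpr hc0)
  have hirrQ : Irreducible (g.primPart.map (Int.castRingHom ℚ)) := by
    have h1 : aeval γ (g.primPart.map (Int.castRingHom ℚ)) = 0 := by
      rw [aeval_ratmap]; exact hPr
    obtain ⟨c, hc⟩ := minpoly.dvd ℚ γ h1
    have hQ0 : g.primPart.map (Int.castRingHom ℚ) ≠ 0 :=
      (Polynomial.map_ne_zero_iff (RingHom.injective_int _)).mpr hP0
    have hc1 : c ≠ 0 := by
      rintro rfl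
      rw [mul_zero] at hc
      exact hQ0 hc
    have h2 := congrArg natDegree hc
    rw [natDegree_mul (minpoly.ne_zero hγ) hc1,
      natDegree_map_eq_of_injective (RingHom.injective_int _), hPd] at h2
    have h3 : c.natDegree = 0 := by omega
    have hcu : IsUnit c := by
      rw [eq_C_of_natDegree_eq_zero h3]
      apply isUnit_C.mpr
      apply isUnit_iff_ne_zero.mpr
      intro h4
      apply hc1
      rw [eq_C_of_natDegree_eq_zero h3, h4, C_0]
    rw [hc]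
    exact (associated_mul_unit_right (minpoly ℚ γ) c hcu).irreducible (minpoly.irreducible hγ)
  have hirr : Irreducible g.primPart :=
    (IsPrimitive.Int.irreducible_iff_irreducible_map_cast hprim).mpr hirrQ
  by_cases hl : 0 < g.primPart.leadingCoeff
  · exact ⟨g.primPart, ⟨hirr, hprim, hl, hPr⟩, hPd, hlc⟩
  · have hl2 : g.primPart.leadingCoeff < 0 := by
      have := leadingCoeff_ne_zero.mpr hP0
      omega
    refine ⟨-g.primPart, ⟨(Associated.refl g.primPart).neg_right.irreducible hirr, ?_, ?_, ?_⟩,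
      ?_, ?_⟩
    · intro r hr
      apply hprim r
      rwa [dvd_neg] at hr
    · rw [leadingCoeff_neg]; omega
    · rw [map_neg, hPr, neg_zero]
    · rw [natDegree_neg, hPd]
    · rw [leadingCoeff_neg, natDegree_neg, Int.natAbs_neg]; exact hlc

theorem prod_max_le (b : ℝ) (hb : 1 ≤ b) (s : Multiset ℂ) (h : ∀ a ∈ s, ‖a‖ ≤ b) :
    0 ≤ (s.map (fun a => max 1 ‖a‖)).prod ∧ (s.map (fun a => max 1 ‖a‖)).prod ≤ b ^ s.card := by
  induction s using Multiset.induction_on with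
  | empty => simp
  | cons a s ih =>
    obtain ⟨h1, h2⟩ := ih (fun x hx => h x (Multiset.mem_cons_of_mem hx))
    have h3 := h a (Multiset.mem_cons_self a s)
    rw [Multiset.map_cons, Multiset.prod_cons, Multiset.card_cons, pow_succ']
    have h4 : max 1 ‖a‖ ≤ b := max_le hb h3
    have h5 : 0 ≤ max 1 ‖a‖ := le_trans zero_le_one (le_max_left _ _)
    exact ⟨mul_nonneg h5 h1, mul_le_mul h4 h2 h1 (by linarith)⟩

theorem mm_le_roots (P : ℤ[X]) (b : ℝ) (hb : 1 ≤ b) (h : ∀ z : ℂ, aeval z P = 0 → ‖z‖ ≤ b) :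
    mm P ≤ (P.leadingCoeff.natAbs : ℝ) * b ^ P.natDegree := by
  by_cases hP : P = 0
  · subst hP
    unfold mm
    simp
  unfold mm
  rw [mahlerMeasure_eq_leadingCoeff_mul_prod_roots,
    leadingCoeff_map_of_injective (RingHom.injective_int _)]
  have h1 : ‖(Int.castRingHom ℂ) P.leadingCoeff‖ = (P.leadingCoeff.natAbs : ℝ) := by
    rw [eq_intCast, Complex.norm_intCast, Nat.cast_natAbs, Int.cast_abs]
  rw [h1]
  have h2 := (prod_max_le b hb (P.map (Int.castRingHom ℂ)).roots (fun a ha => by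
    apply h
    rw [mem_roots ((Polynomial.map_ne_zero_iff (RingHom.injective_int _)).mpr hP), IsRoot.def,
      eval_map] at ha
    exact ha)).2
  have h3 : (P.map (Int.castRingHom ℂ)).roots.card ≤ P.natDegree := by
    refine (card_roots' _).trans ?_
    rw [natDegree_map_eq_of_injective (RingHom.injective_int _)]
  have h4 : b ^ (P.map (Int.castRingHom ℂ)).roots.card ≤ b ^ P.natDegree :=
    pow_le_pow_right₀ hb h3
  have h5 : (0 : ℝ) ≤ (P.leadingCoeff.natAbs : ℝ) := Nat.cast_nonneg _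
  exact mul_le_mul_of_nonneg_left (h2.trans h4) h5

variable {e V Mq : ℕ → ℕ} (X : SData e V Mq)

/-- The minimal polynomials of the powers of the approximants. -/
theorem pow_minZ (hV : ∀ j, 22 ≤ V j) (q : ℕ) (hq : 1 ≤ q) (j : ℕ)
    (hcop : Nat.Coprime (j + 1) q.factorial) :
    ∃ C : ℝ, 1 ≤ C ∧ ∀ k, e k = j → ∃ P : ℤ[X], IsMinZ P (X.α k ^ q) ∧ P.natDegree = j + 1 ∧
      (ht P : ℝ) ≤ C * (X.N k : ℝ) ^ (q * (j + 1)) := by
  classical
  -- a bound for the roots of `T`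
  obtain ⟨b0, hb0⟩ : ∃ b0 : ℝ, ∀ t : ℂ, aeval t (TD j).T = 0 → ‖t‖ ≤ b0 := by
    refine ⟨∑ t ∈ ((TD j).T.aroots ℂ).toFinset, ‖t‖, fun t ht => ?_⟩
    exact Finset.single_le_sum (f := fun t : ℂ => ‖t‖) (fun _ _ => norm_nonneg _)
      ((mem_aroots_iff _ (TD j).irr.ne_zero t).mpr ht)
  obtain ⟨b, hb⟩ : ∃ b : ℝ, b = |b0| + 2 := ⟨_, rfl⟩
  have hb1 : 1 ≤ b := by rw [hb]; linarith [abs_nonneg b0]
  obtain ⟨lT, hlT⟩ : ∃ lT : ℕ, lT = (TD j).T.leadingCoeff.natAbs := ⟨_, rfl⟩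
  have hlT1 : 1 ≤ lT := by
    rw [hlT]
    exact Int.natAbs_pos.mpr (leadingCoeff_ne_zero.mpr (TD j).irr.ne_zero)
  have hlT1r : (1 : ℝ) ≤ lT := by exact_mod_cast hlT1
  refine ⟨2 ^ (j + 1) * ((lT : ℝ) ^ (q * (j + 1)) * (b ^ q) ^ (j + 1)), ?_, fun k hk => ?_⟩
  · have h1 : (1 : ℝ) ≤ 2 ^ (j + 1) := one_le_pow₀ (by norm_num)
    have h2 : (1 : ℝ) ≤ (lT : ℝ) ^ (q * (j + 1)) := one_le_pow₀ hlT1r
    have h3 : (1 : ℝ) ≤ (b ^ q) ^ (j + 1) := one_le_pow₀ (one_le_pow₀ hb1)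
    calc (1 : ℝ) = 1 * (1 * 1) := by norm_num
      _ ≤ _ := by gcongr
  · obtain ⟨hirr, hprim, hdegS, _, hroot⟩ := X.S_props k
    have hα : IsIntegral ℚ (X.α k) := isIntegral_of_int (X.S k) hirr _ hroot
    have hmd : (minpoly ℚ (X.α k)).natDegree = j + 1 := by
      rw [minpoly_natDegree (X.S k) hirr _ hroot, hdegS, hk]
    have hmd2 : (minpoly ℚ (X.α k ^ q)).natDegree = j + 1 := by
      rw [← hmd]
      exact (coeff_zero_pow (X.α k) hα q hq (by rw [hmd]; exact hcop)).1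
    -- integrality
    obtain ⟨a, ha⟩ : ∃ a : ℤ, a = ((TD j).T.leadingCoeff * (X.N k : ℤ)) ^ q := ⟨_, rfl⟩
    have ha0 : a ≠ 0 := by
      rw [ha]
      apply pow_ne_zero
      apply mul_ne_zero (leadingCoeff_ne_zero.mpr (TD j).irr.ne_zero)
      have := X.N_pos k
      exact_mod_cast (by omega : X.N k ≠ 0)
    have hint : IsIntegral ℤ ((a : ℝ) * X.α k ^ q) := by
      have h1 : IsIntegral ℤ ((TD j).T.leadingCoeff • (TD j).θ) :=
        isIntegral_leadingCoeff_smul _ _ (TD j).root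
      have hNr : (X.N k : ℝ) ≠ 0 := by have := X.N_one_le k; linarith
      have h2 : ((TD j).T.leadingCoeff : ℝ) * (X.N k : ℝ) * X.α k =
          (X.N k : ℤ) * ((TD j).T.leadingCoeff • (TD j).θ) +
            (((TD j).T.leadingCoeff * X.n k : ℤ) : ℝ) := by
        unfold SData.α
        rw [hk, zsmul_eq_mul]
        push_cast
        field_simp
      have h3 : IsIntegral ℤ (((TD j).T.leadingCoeff : ℝ) * (X.N k : ℝ) * X.α k) := by
        rw [h2]
        apply IsIntegral.add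
        · apply IsIntegral.mul _ h1
          exact isIntegral_algebraMap (R := ℤ) (A := ℝ) (x := (X.N k : ℤ))
        · exact isIntegral_algebraMap (R := ℤ) (A := ℝ)
      have h4 : (a : ℝ) * X.α k ^ q =
          (((TD j).T.leadingCoeff : ℝ) * (X.N k : ℝ) * X.α k) ^ q := by
        rw [ha]
        push_cast
        ring
      rw [h4]
      exact h3.pow q
    obtain ⟨P, hPm, hPd, hPl⟩ := exists_minZ (X.α k ^ q) (hα.pow q) a ha0 hint
    rw [hmd2] at hPd
    refine ⟨P, hPm, hPd, ?_⟩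
    have hPirr : Irreducible (P.map (Int.castRingHom ℚ)) :=
      (IsPrimitive.Int.irreducible_iff_irreducible_map_cast hPm.2.1).mp hPm.1
    -- the roots of `P`
    have hroots : ∀ z : ℂ, aeval z P = 0 → ‖z‖ ≤ b ^ q := by
      intro z hz
      obtain ⟨β, hβ, rfl⟩ := pow_surj (X.S k) P hirr hPirr (X.α k) hroot q hq hPm.2.2.2
        (by rw [hdegS, hk]; exact hcop) z hz
      rw [norm_pow]
      apply pow_le_pow_left₀ (norm_nonneg _)
      rw [aevalC, mul_eq_zero, or_iff_right (pow_ne_zero _ (N_ne X k)), hk] at hβ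
      have h1 := hb0 _ hβ
      have h2 : ‖(X.n k : ℂ) / (X.N k : ℂ)‖ ≤ 2 := by
        have e1 : ((X.n k : ℂ) / (X.N k : ℂ)) = (((X.n k : ℝ) / (X.N k : ℝ) : ℝ) : ℂ) := by
          push_cast
          rfl
        rw [e1, Complex.norm_real, Real.norm_eq_abs]
        have h3 := X.α_abs hV k
        have h4 := (TD (e k)).nonneg
        have h5 := (TD (e k)).le_one
        unfold SData.α at h3
        rw [abs_le] at h3 ⊢
        constructor <;> linarith
      calc ‖β‖ = ‖(β - (X.n k : ℂ) / (X.N k : ℂ)) + (X.n k : ℂ) / (X.N k : ℂ)‖ := by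
            rw [sub_add_cancel]
        _ ≤ ‖β - (X.n k : ℂ) / (X.N k : ℂ)‖ + ‖(X.n k : ℂ) / (X.N k : ℂ)‖ := norm_add_le _ _
        _ ≤ b0 + 2 := by linarith
        _ ≤ b := by rw [hb]; linarith [le_abs_self b0]
    have h1 := ht_le_mm P
    have h2 := mm_le_roots P (b ^ q) (one_le_pow₀ hb1) hroots
    rw [hPd] at h1 h2
    have h3 : (P.leadingCoeff.natAbs : ℝ) ≤ ((lT : ℝ) * (X.N k : ℝ)) ^ (q * (j + 1)) := by
      rw [hPd, ha, Int.natAbs_pow, Int.natAbs_mul, Int.natAbs_natCast, ← hlT, ← pow_mul] at hPl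
      exact_mod_cast hPl
    calc (ht P : ℝ) ≤ 2 ^ (j + 1) * mm P := h1
      _ ≤ 2 ^ (j + 1) * ((P.leadingCoeff.natAbs : ℝ) * (b ^ q) ^ (j + 1)) := by gcongr
      _ ≤ 2 ^ (j + 1) * (((lT : ℝ) * (X.N k : ℝ)) ^ (q * (j + 1)) * (b ^ q) ^ (j + 1)) := by
          gcongr
      _ = _ := by rw [mul_pow]; ring

end Pool.Agent.Y897.ST
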