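import Mathlib
import Pool.Agent.Helper35.TSqMain

set_option autoImplicit false

namespace Pool.Agent.Y897.ST

open Polynomial Pool.Agent.Helper35

theorem abs_pow_sub_pow_leR (R x y : ℝ) (hR : 1 ≤ R) (hx : |x| ≤ R) (hy : |y| ≤ R) (i : ℕ) :
    |x ^ i - y ^ i| ≤ (i : ℝ) * R ^ i * |x - y| := by
  have hR0 : 0 ≤ R := by linarith
  induction i with
  | zero => simp
  | succ i ih =>
    have e : x ^ (i + 1) - y ^ (i + 1) = x ^ i * (x - y) + (x ^ i - y ^ i) * y := by ring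
    rw [e]
    have h1 : |x ^ i| ≤ R ^ i := by rw [abs_pow]; exact pow_le_pow_left₀ (abs_nonneg _) hx i
    have h2 : (R : ℝ) ^ i ≤ R ^ (i + 1) := pow_le_pow_right₀ hR (by omega)
    have h3 : 0 ≤ |x - y| := abs_nonneg _
    calc |x ^ i * (x - y) + (x ^ i - y ^ i) * y|
        ≤ |x ^ i * (x - y)| + |(x ^ i - y ^ i) * y| := abs_add_le _ _
      _ = |x ^ i| * |x - y| + |x ^ i - y ^ i| * |y| := by rw [abs_mul, abs_mul]
      _ ≤ R ^ i * |x - y| + ((i : ℝ) * R ^ i * |x - y|) * R := by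
          gcongr
      _ ≤ R ^ (i + 1) * |x - y| + ((i : ℝ) * R ^ i * |x - y|) * R := by
          gcongr
      _ = ((i + 1 : ℕ) : ℝ) * R ^ (i + 1) * |x - y| := by push_cast; ring

theorem abs_aeval_sub_leR (P : ℤ[X]) (R x y : ℝ) (hR : 1 ≤ R) (hx : |x| ≤ R) (hy : |y| ≤ R)
    (n : ℕ) (hn : P.natDegree ≤ n) :
    |aeval x P - aeval y P| ≤ (((n : ℝ) + 1) ^ 2 * R ^ n) * ht P * |x - y| := by
  have hR0 : 0 ≤ R := by linarith
  have hnr : (P.natDegree : ℝ) ≤ n := by exact_mod_cast hn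
  rw [aeval_eq_sum, aeval_eq_sum, ← Finset.sum_sub_distrib]
  calc |∑ i ∈ Finset.range (P.natDegree + 1), ((P.coeff i : ℝ) * x ^ i - (P.coeff i : ℝ) * y ^ i)|
      ≤ ∑ i ∈ Finset.range (P.natDegree + 1),
          |(P.coeff i : ℝ) * x ^ i - (P.coeff i : ℝ) * y ^ i| := Finset.abs_sum_le_sum_abs _ _
    _ ≤ ∑ i ∈ Finset.range (P.natDegree + 1), (((n : ℝ) + 1) * R ^ n) * ht P * |x - y| := by
        refine Finset.sum_le_sum (fun i hi => ?_)
        rw [← mul_sub, abs_mul]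
        have hi0 : i ≤ n := by
          have := Finset.mem_range.mp hi
          omega
        have hi' : (i : ℝ) ≤ (n : ℝ) + 1 := by
          have : (i : ℝ) ≤ n := by exact_mod_cast hi0
          linarith
        have hi2 : (R : ℝ) ^ i ≤ R ^ n := pow_le_pow_right₀ hR hi0
        calc |(P.coeff i : ℝ)| * |x ^ i - y ^ i|
            ≤ ht P * ((i : ℝ) * R ^ i * |x - y|) :=
              mul_le_mul (abs_coeff_le_ht P i) (abs_pow_sub_pow_leR R x y hR hx hy i)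
                (abs_nonneg _) (Nat.cast_nonneg _)
          _ ≤ ht P * (((n : ℝ) + 1) * R ^ n * |x - y|) := by gcongr
          _ = _ := by ring
    _ = ((P.natDegree : ℝ) + 1) * ((((n : ℝ) + 1) * R ^ n) * ht P * |x - y|) := by
        rw [Finset.sum_const, Finset.card_range, nsmul_eq_mul]; push_cast; ring
    _ ≤ ((n : ℝ) + 1) * ((((n : ℝ) + 1) * R ^ n) * ht P * |x - y|) := by
        gcongr
    _ = _ := by ring

/-- Upper bound for the exponents of algebraic approximation, any real number. -/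
theorem SSet_leR (ξ : ℝ) (n E : ℕ) (c : ℝ) (hc : 0 < c)
    (h : ∀ P : ℤ[X], P ≠ 0 → P.natDegree ≤ n → c ≤ |aeval ξ P| * (ht P : ℝ) ^ E)
    (w : ℝ) (hw : w ∈ SSet ξ n) : w ≤ E := by
  by_contra hcon
  push Not at hcon
  have hE0 : (0 : ℝ) ≤ E := Nat.cast_nonneg _
  obtain ⟨R, hR⟩ : ∃ R : ℝ, R = |ξ| + 1 := ⟨_, rfl⟩
  have hR1 : 1 ≤ R := by rw [hR]; linarith [abs_nonneg ξ]
  obtain ⟨K, hK⟩ : ∃ K : ℝ, K = (((n : ℝ) + 1) ^ 2 * R ^ n) := ⟨_, rfl⟩
  have hKpos : 0 < K := by rw [hK]; positivity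
  have hlim : Filter.Tendsto (fun H : ℕ => (H : ℝ) ^ (w - E)) Filter.atTop Filter.atTop :=
    (tendsto_rpow_atTop (by linarith)).comp tendsto_natCast_atTop_atTop
  obtain ⟨H, hH⟩ := Filter.eventually_atTop.mp (hlim.eventually_gt_atTop (K / c))
  obtain ⟨α, hα, P, hP0, hPr, hPd, ⟨hPpos, hPle⟩, hPH⟩ :=
    exists_ht_gt_alg (n := n) hw (fun P α => 0 < |ξ - α| ∧ |ξ - α| ≤ (ht P : ℝ) ^ (-w - 1))
      (fun α hα => by
        obtain ⟨P, ⟨h1, h2, h3, h4⟩, h5, h6, h7⟩ := hα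
        exact ⟨P, h1.ne_zero, h4, h5, h6, h7⟩) (max H 1)
  have h2 := hH (ht P) (by omega)
  have hhtr : (1 : ℝ) ≤ ht P := by exact_mod_cast ht_pos hP0
  have hhtpos : (0 : ℝ) < ht P := by linarith
  have hξa : |ξ| ≤ R := by rw [hR]; linarith
  have hdist : |ξ - α| ≤ 1 := by
    refine hPle.trans ?_
    exact Real.rpow_le_one_of_one_le_of_nonpos hhtr (by linarith)
  have hα2 : |α| ≤ R := by
    have : |α| ≤ |ξ| + |ξ - α| := by
      have := abs_sub_abs_le_abs_sub α ξ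
      rw [abs_sub_comm α ξ] at this
      linarith
    linarith
  have h1 := h P hP0 hPd
  have h3 : |aeval ξ P| ≤ K * ht P * |ξ - α| := by
    have := abs_aeval_sub_leR P R ξ α hR1 hξa hα2 n hPd
    rw [hPr, sub_zero, ← hK] at this
    exact this
  have h4 : c ≤ (K * ht P * (ht P : ℝ) ^ (-w - 1)) * (ht P : ℝ) ^ E := by
    refine h1.trans ?_
    gcongr
    exact h3.trans (by gcongr)
  have h5 : (K * ht P * (ht P : ℝ) ^ (-w - 1)) * (ht P : ℝ) ^ E =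
      K * ((ht P : ℝ) ^ (w - E))⁻¹ := by
    have e1 : (ht P : ℝ) * (ht P : ℝ) ^ (-w - 1) = (ht P : ℝ) ^ (-w) := by
      have : (ht P : ℝ) * (ht P : ℝ) ^ (-w - 1) =
          (ht P : ℝ) ^ (1 : ℝ) * (ht P : ℝ) ^ (-w - 1) := by rw [Real.rpow_one]
      rw [this, ← Real.rpow_add hhtpos]; congr 1; ring
    rw [mul_assoc K, e1, mul_assoc, ← Real.rpow_natCast (ht P : ℝ) E, ← Real.rpow_add hhtpos,
      ← Real.rpow_neg hhtpos.le]
    congr 2; ring
  rw [h5] at h4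
  have h6 : K * ((ht P : ℝ) ^ (w - E))⁻¹ < c := by
    have hp : 0 < (ht P : ℝ) ^ (w - E) := by positivity
    rw [← div_eq_mul_inv, div_lt_iff₀ hp]
    rw [div_lt_iff₀ hc] at h2
    linarith
  linarith

theorem ht_reflect_le (n : ℕ) (P : ℤ[X]) : ht (reflect n P) ≤ ht P := by
  apply ht_le_of
  intro i
  rw [coeff_reflect]
  exact natAbs_coeff_le_ht P _

theorem natDegree_reflect_le' (n : ℕ) (P : ℤ[X]) (hn : P.natDegree ≤ n) :
    (reflect n P).natDegree ≤ n := by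
  rw [natDegree_le_iff_coeff_eq_zero]
  intro i hi
  rw [coeff_reflect, revAt_eq_self_of_lt hi]
  exact coeff_eq_zero_of_natDegree_lt (by omega)

theorem aeval_reflect (η : ℝ) (hη : η ≠ 0) (n : ℕ) (P : ℤ[X]) (hn : P.natDegree ≤ n) :
    aeval η (reflect n P) * (η⁻¹) ^ n = aeval η⁻¹ P := by
  have hu : IsUnit (η⁻¹) := (inv_ne_zero hη).isUnit
  letI : Invertible (η⁻¹) := hu.invertible
  have h1 := eval₂_reflect_mul_pow (algebraMap ℤ ℝ) (η⁻¹) n P hn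
  have h2 : ⅟(η⁻¹) = η := by
    rw [invOf_eq_inv, inv_inv]
  rw [h2] at h1
  exact h1

/-- Lower bounds for polynomials pass to the inverse. -/
theorem bound_inv (η : ℝ) (hη : η ≠ 0) (n E : ℕ) (c : ℝ) (hc : 0 < c)
    (h : ∀ P : ℤ[X], P ≠ 0 → P.natDegree ≤ n → c ≤ |aeval η P| * (ht P : ℝ) ^ E) :
    ∃ c' : ℝ, 0 < c' ∧ ∀ P : ℤ[X], P ≠ 0 → P.natDegree ≤ n →
      c' ≤ |aeval η⁻¹ P| * (ht P : ℝ) ^ E := by
  have hη' : 0 < |η⁻¹| := abs_pos.mpr (inv_ne_zero hη)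
  refine ⟨c * |η⁻¹| ^ n, by positivity, fun P hP hn => ?_⟩
  have h1 := h (reflect n P) (by rwa [Ne, reflect_eq_zero_iff]) (natDegree_reflect_le' n P hn)
  have h2 : (ht (reflect n P) : ℝ) ^ E ≤ (ht P : ℝ) ^ E := by
    have : (ht (reflect n P) : ℝ) ≤ ht P := by exact_mod_cast ht_reflect_le n P
    gcongr
  rw [← aeval_reflect η hη n P hn, abs_mul, abs_pow]
  calc c * |η⁻¹| ^ n ≤ (|aeval η (reflect n P)| * (ht (reflect n P) : ℝ) ^ E) * |η⁻¹| ^ n := by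
        gcongr
    _ ≤ (|aeval η (reflect n P)| * (ht P : ℝ) ^ E) * |η⁻¹| ^ n := by gcongr
    _ = _ := by ring

end Pool.Agent.Y897.ST
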