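import Mathlib
import Pool.Agent.Y897.ST.Gen

set_option autoImplicit false

namespace Pool.Agent.Y897.ST

open Polynomial Pool.Agent.Helper35

/-- Algebraic numbers of degree at most `m` very close to `η`. -/
def Near (η : ℝ) (m E : ℕ) : Prop := ∃ C : ℝ, 1 ≤ C ∧ ∀ K : ℕ, ∃ (P : ℤ[X]) (γ Z : ℝ),
  (K : ℝ) ≤ Z ∧ 1 ≤ Z ∧ IsMinZ P γ ∧ P.natDegree ≤ m ∧ (ht P : ℝ) ≤ C * Z ∧ 0 < |η - γ| ∧
    |η - γ| * Z ^ E ≤ C

theorem pow_bound (C v' : ℝ) (E : ℕ) (hC : 1 ≤ C) (hv1 : v' < (E : ℝ) - 1) :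
    ∃ K : ℕ, ∀ Z : ℝ, (K : ℝ) ≤ Z → C ≤ Z ^ ((E : ℝ) - 1 - v') := by
  have hlim : Filter.Tendsto (fun H : ℝ => H ^ ((E : ℝ) - 1 - v')) Filter.atTop Filter.atTop :=
    tendsto_rpow_atTop (by linarith)
  obtain ⟨A, hA⟩ := Filter.eventually_atTop.mp (hlim.eventually_ge_atTop C)
  obtain ⟨K, hK⟩ := exists_nat_ge A
  exact ⟨K, fun Z hZ => hA Z (hK.trans hZ)⟩

theorem near_SSet (η : ℝ) (m E : ℕ) (hE : 2 ≤ E) (h : Near η m E) (w : ℝ)
    (hw : w < (E : ℝ) - 1) : w ∈ SSet η m := by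
  classical
  obtain ⟨C, hC, hseq⟩ := h
  obtain ⟨v', hv'⟩ : ∃ v' : ℝ, v' = max w 0 := ⟨_, rfl⟩
  have hv'0 : 0 ≤ v' := by rw [hv']; exact le_max_right _ _
  have hwv : w ≤ v' := by rw [hv']; exact le_max_left _ _
  have hEr : (2 : ℝ) ≤ E := by exact_mod_cast hE
  have hv'1 : v' < (E : ℝ) - 1 := by rw [hv']; exact max_lt hw (by linarith)
  have hCv : 1 ≤ C * C ^ (v' + 1) :=
    one_le_mul_of_one_le_of_one_le hC (Real.one_le_rpow hC (by linarith))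
  obtain ⟨K1, hK1⟩ := pow_bound (C * C ^ (v' + 1)) v' E hCv hv'1
  unfold Pool.Agent.Helper35.SSet
  intro hfin
  obtain ⟨St, hSt⟩ : ∃ St : Set ℝ, St = {α : ℝ | ∃ P : ℤ[X], IsMinZ P α ∧ P.natDegree ≤ m ∧
    0 < |η - α| ∧ |η - α| ≤ (ht P : ℝ) ^ (-w - 1)} := ⟨_, rfl⟩
  rw [← hSt] at hfin
  have hmem : ∀ (P : ℤ[X]) (γ Z : ℝ), (K1 : ℝ) ≤ Z → 1 ≤ Z → IsMinZ P γ → P.natDegree ≤ m →
      (ht P : ℝ) ≤ C * Z → 0 < |η - γ| → |η - γ| * Z ^ E ≤ C → γ ∈ St := by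
    intro P γ Z h1 h2 h3 h4 h5 h6 h7
    rw [hSt]
    refine ⟨P, h3, h4, h6, ?_⟩
    have hht : (1 : ℝ) ≤ ht P := by exact_mod_cast ht_pos h3.1.ne_zero
    have hZ0 : 0 < Z := by linarith
    have e1 : (ht P : ℝ) ^ (-(v' + 1)) ≤ (ht P : ℝ) ^ (-w - 1) :=
      Real.rpow_le_rpow_of_exponent_le hht (by linarith)
    have e2 : (C * Z) ^ (-(v' + 1)) ≤ (ht P : ℝ) ^ (-(v' + 1)) :=
      Real.rpow_le_rpow_of_nonpos (by linarith) h5 (by linarith)
    refine le_trans ?_ (e2.trans e1)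
    have e3 := hK1 Z h1
    have e4 : Z ^ ((E : ℝ) - 1 - v') = Z ^ E / Z ^ (v' + 1) := by
      have : (E : ℝ) - 1 - v' = (E : ℝ) - (v' + 1) := by ring
      rw [this, Real.rpow_sub hZ0, Real.rpow_natCast]
    rw [e4, le_div_iff₀ (by positivity)] at e3
    have hZE : 0 < Z ^ E := by positivity
    have e5 : |η - γ| ≤ C / Z ^ E := by rw [le_div_iff₀ hZE]; exact h7
    refine e5.trans ?_
    rw [Real.rpow_neg (by positivity), Real.mul_rpow (by linarith) hZ0.le, ← one_div,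
      div_le_div_iff₀ hZE (by positivity)]
    calc C * (C ^ (v' + 1) * Z ^ (v' + 1)) = C * C ^ (v' + 1) * Z ^ (v' + 1) := by ring
      _ ≤ Z ^ E := e3
      _ = 1 * Z ^ E := (one_mul _).symm
  obtain ⟨P0, γ0, Z0, a1, a2, a3, a4, a5, a6, a7⟩ := hseq K1
  obtain ⟨α0, hα0, hmin⟩ := Set.exists_min_image St (fun α => |η - α|) hfin
    ⟨γ0, hmem P0 γ0 Z0 a1 a2 a3 a4 a5 a6 a7⟩
  have hα0pos : 0 < |η - α0| := by
    rw [hSt] at hα0
    obtain ⟨P, _, _, h, _⟩ := hα0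
    exact h
  obtain ⟨B, hB⟩ := exists_nat_gt (C / |η - α0|)
  obtain ⟨P, γ, Z, b1, b2, b3, b4, b5, b6, b7⟩ := hseq (K1 + B)
  push_cast at b1
  have hK10 : (0 : ℝ) ≤ K1 := Nat.cast_nonneg _
  have hB0 : (0 : ℝ) ≤ B := Nat.cast_nonneg _
  have c1 := hmin γ (hmem P γ Z (by linarith) b2 b3 b4 b5 b6 b7)
  have c2 : C < |η - α0| * Z := by
    rw [div_lt_iff₀ hα0pos] at hB
    calc C < (B : ℝ) * |η - α0| := hB
      _ ≤ Z * |η - α0| := by gcongr; linarith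
      _ = _ := mul_comm _ _
  have c3 : |η - γ| * Z ≤ C := by
    refine le_trans ?_ b7
    gcongr
    exact le_self_pow₀ b2 (by omega)
  have c4 : |η - α0| * Z ≤ |η - γ| * Z := by gcongr
  linarith

theorem near_WSet (η : ℝ) (hne : ∀ P : ℤ[X], P ≠ 0 → aeval η P ≠ 0) (m E : ℕ) (hE : 2 ≤ E)
    (h : Near η m E) (w : ℝ) (hw : w < (E : ℝ) - 1) : w ∈ WSet η m := by
  classical
  obtain ⟨C, hC, hseq⟩ := h
  obtain ⟨v', hv'⟩ : ∃ v' : ℝ, v' = max w 0 := ⟨_, rfl⟩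
  have hv'0 : 0 ≤ v' := by rw [hv']; exact le_max_right _ _
  have hwv : w ≤ v' := by rw [hv']; exact le_max_left _ _
  have hEr : (2 : ℝ) ≤ E := by exact_mod_cast hE
  have hv'1 : v' < (E : ℝ) - 1 := by rw [hv']; exact max_lt hw (by linarith)
  obtain ⟨R, hR⟩ : ∃ R : ℝ, R = |η| + C := ⟨_, rfl⟩
  have hR1 : 1 ≤ R := by rw [hR]; linarith [abs_nonneg η]
  obtain ⟨D, hD⟩ : ∃ D : ℝ, D = (((m : ℝ) + 1) ^ 2 * R ^ m) := ⟨_, rfl⟩
  have hD1 : 1 ≤ D := by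
    rw [hD]
    apply one_le_mul_of_one_le_of_one_le
    · apply one_le_pow₀
      have : (0 : ℝ) ≤ m := Nat.cast_nonneg _
      linarith
    · exact one_le_pow₀ hR1
  have hCv : 1 ≤ D * C * C * C ^ v' := by
    apply one_le_mul_of_one_le_of_one_le _ (Real.one_le_rpow hC hv'0)
    exact one_le_mul_of_one_le_of_one_le (one_le_mul_of_one_le_of_one_le hD1 hC) hC
  obtain ⟨K1, hK1⟩ := pow_bound (D * C * C * C ^ v') v' E hCv hv'1
  unfold Pool.Agent.Helper35.WSet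
  intro hfin
  obtain ⟨St, hSt⟩ : ∃ St : Set ℤ[X], St = {P : ℤ[X] | P ≠ 0 ∧ P.natDegree ≤ m ∧
    0 < |aeval η P| ∧ |aeval η P| ≤ (ht P : ℝ) ^ (-w)} := ⟨_, rfl⟩
  rw [← hSt] at hfin
  have hval : ∀ (P : ℤ[X]) (γ Z : ℝ), 1 ≤ Z → IsMinZ P γ → P.natDegree ≤ m →
      (ht P : ℝ) ≤ C * Z → |η - γ| * Z ^ E ≤ C → |aeval η P| * Z ^ E ≤ D * C * C * Z := by
    intro P γ Z h2 h3 h4 h5 h7
    have hZ0 : 0 < Z := by linarith
    have hZE : 1 ≤ Z ^ E := one_le_pow₀ h2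
    have hdist : |η - γ| ≤ C := by
      calc |η - γ| = |η - γ| * 1 := (mul_one _).symm
        _ ≤ |η - γ| * Z ^ E := by gcongr
        _ ≤ C := h7
    have hγ : |γ| ≤ R := by
      have := abs_sub_abs_le_abs_sub γ η
      rw [abs_sub_comm γ η] at this
      rw [hR]
      linarith
    have hη : |η| ≤ R := by rw [hR]; linarith
    have e1 := abs_aeval_sub_leR P R η γ hR1 hη hγ m h4
    rw [h3.2.2.2, sub_zero, ← hD] at e1
    calc |aeval η P| * Z ^ E ≤ (D * ht P * |η - γ|) * Z ^ E := by gcongr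
      _ = D * ht P * (|η - γ| * Z ^ E) := by ring
      _ ≤ D * (C * Z) * C := by gcongr
      _ = _ := by ring
  have hmem : ∀ (P : ℤ[X]) (γ Z : ℝ), (K1 : ℝ) ≤ Z → 1 ≤ Z → IsMinZ P γ → P.natDegree ≤ m →
      (ht P : ℝ) ≤ C * Z → |η - γ| * Z ^ E ≤ C → P ∈ St := by
    intro P γ Z h1 h2 h3 h4 h5 h7
    rw [hSt]
    refine ⟨h3.1.ne_zero, h4, abs_pos.mpr (hne P h3.1.ne_zero), ?_⟩
    have hht : (1 : ℝ) ≤ ht P := by exact_mod_cast ht_pos h3.1.ne_zero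
    have hZ0 : 0 < Z := by linarith
    have e1 : (ht P : ℝ) ^ (-v') ≤ (ht P : ℝ) ^ (-w) :=
      Real.rpow_le_rpow_of_exponent_le hht (by linarith)
    have e2 : (C * Z) ^ (-v') ≤ (ht P : ℝ) ^ (-v') :=
      Real.rpow_le_rpow_of_nonpos (by linarith) h5 (by linarith)
    refine le_trans ?_ (e2.trans e1)
    have e3 := hK1 Z h1
    have e4 : Z ^ ((E : ℝ) - 1 - v') = Z ^ E / Z / Z ^ v' := by
      rw [Real.rpow_sub hZ0, Real.rpow_sub hZ0, Real.rpow_one, Real.rpow_natCast]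
    have hZv : 0 < Z ^ v' := by positivity
    rw [e4, le_div_iff₀ hZv, le_div_iff₀ hZ0] at e3
    have hZE : 0 < Z ^ E := by positivity
    have e5 : |aeval η P| ≤ D * C * C * Z / Z ^ E := by
      rw [le_div_iff₀ hZE]; exact hval P γ Z h2 h3 h4 h5 h7
    refine e5.trans ?_
    rw [Real.rpow_neg (by positivity), Real.mul_rpow (by linarith) hZ0.le, ← one_div,
      div_le_div_iff₀ hZE (by positivity)]
    calc D * C * C * Z * (C ^ v' * Z ^ v') = D * C * C * C ^ v' * Z ^ v' * Z := by ring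
      _ ≤ Z ^ E := e3
      _ = 1 * Z ^ E := (one_mul _).symm
  obtain ⟨P0, γ0, Z0, a1, a2, a3, a4, a5, a6, a7⟩ := hseq K1
  obtain ⟨Q0, hQ0, hmin⟩ := Set.exists_min_image St (fun P => |aeval η P|) hfin
    ⟨P0, hmem P0 γ0 Z0 a1 a2 a3 a4 a5 a7⟩
  have hQ0pos : 0 < |aeval η Q0| := by
    rw [hSt] at hQ0
    exact hQ0.2.2.1
  obtain ⟨B, hB⟩ := exists_nat_gt (D * C * C / |aeval η Q0|)
  obtain ⟨P, γ, Z, b1, b2, b3, b4, b5, b6, b7⟩ := hseq (K1 + B)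
  push_cast at b1
  have hK10 : (0 : ℝ) ≤ K1 := Nat.cast_nonneg _
  have hB0 : (0 : ℝ) ≤ B := Nat.cast_nonneg _
  have hZ0 : 0 < Z := by linarith
  have c1 := hmin P (hmem P γ Z (by linarith) b2 b3 b4 b5 b7)
  have c2 : D * C * C < |aeval η Q0| * Z := by
    rw [div_lt_iff₀ hQ0pos] at hB
    calc D * C * C < (B : ℝ) * |aeval η Q0| := hB
      _ ≤ Z * |aeval η Q0| := by gcongr; linarith
      _ = _ := mul_comm _ _
  have c3 : |aeval η P| * Z * Z ≤ D * C * C * Z := by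
    refine le_trans ?_ (hval P γ Z b2 b3 b4 b5 b7)
    have : Z * Z ≤ Z ^ E := by
      calc Z * Z = Z ^ 2 := by ring
        _ ≤ Z ^ E := pow_le_pow_right₀ b2 hE
    calc |aeval η P| * Z * Z = |aeval η P| * (Z * Z) := by ring
      _ ≤ _ := by gcongr
  have c3' : |aeval η P| * Z ≤ D * C * C := le_of_mul_le_mul_right c3 hZ0
  have c4 : |aeval η Q0| * Z ≤ |aeval η P| * Z := by gcongr
  linarith

theorem rev_rev (a : ℤ[X]) (h : a.coeff 0 ≠ 0) : a.reverse.reverse = a := by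
  have h1 : a.reverse.natDegree = a.natDegree := by
    rw [reverse_natDegree, natTrailingDegree_eq_zero.mpr (Or.inr h), Nat.sub_zero]
  ext i
  rw [coeff_reverse, coeff_reverse, h1, revAt_invol]

theorem minZ_inv (P : ℤ[X]) (γ : ℝ) (hP : IsMinZ P γ) (hγ : γ ≠ 0) :
    ∃ P' : ℤ[X], IsMinZ P' γ⁻¹ ∧ P'.natDegree ≤ P.natDegree ∧ ht P' ≤ ht P := by
  obtain ⟨h1, h2, h3, h4⟩ := hP
  have hP0 := h1.ne_zero
  have hc0 : P.coeff 0 ≠ 0 := by
    intro h0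
    obtain ⟨c, hc⟩ := X_dvd_iff.mpr h0
    rcases h1.isUnit_or_isUnit hc with hu | hu
    · exact not_isUnit_X hu
    · obtain ⟨r, hr, hrc⟩ := Polynomial.isUnit_iff.mp hu
      rw [hc, ← hrc, map_mul, aeval_X, aeval_C] at h4
      rcases mul_eq_zero.mp h4 with h5 | h5
      · exact hγ h5
      · have : ((r : ℤ) : ℝ) = 0 := h5
        have : r = 0 := by exact_mod_cast this
        exact hr.ne_zero this
  obtain ⟨Q, hQ⟩ : ∃ Q, Q = P.reverse := ⟨_, rfl⟩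
  have hQP : Q.reverse = P := by rw [hQ]; exact rev_rev P hc0
  have hQ0 : Q ≠ 0 := by rw [hQ, Ne, reverse_eq_zero]; exact hP0
  have hQc : Q.coeff 0 ≠ 0 := by
    rw [hQ, coeff_zero_reverse]
    exact leadingCoeff_ne_zero.mpr hP0
  have hQu : ∀ a : ℤ[X], a.coeff 0 ≠ 0 → IsUnit a.reverse → IsUnit a := by
    intro a ha hu
    obtain ⟨r, hr, hra⟩ := Polynomial.isUnit_iff.mp hu
    have : a = C r := by rw [← rev_rev a ha, ← hra, reverse_C]
    rw [this]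
    exact isUnit_C.mpr hr
  have hQi : Irreducible Q := by
    constructor
    · intro hu
      obtain ⟨r, hr, hra⟩ := Polynomial.isUnit_iff.mp hu
      apply h1.not_isUnit
      rw [← hQP, ← hra, reverse_C]
      exact isUnit_C.mpr hr
    · intro a b hab
      have hab0 : a.coeff 0 * b.coeff 0 ≠ 0 := by
        rw [← mul_coeff_zero, ← hab]; exact hQc
      have h5 : P = a.reverse * b.reverse := by rw [← hQP, hab, reverse_mul_of_domain]
      rcases h1.isUnit_or_isUnit h5 with h | h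
      · exact Or.inl (hQu a (left_ne_zero_of_mul hab0) h)
      · exact Or.inr (hQu b (right_ne_zero_of_mul hab0) h)
  have hQprim : Q.IsPrimitive := by
    intro r hr
    apply h2 r
    rw [C_dvd_iff_dvd_coeff] at hr ⊢
    intro i
    rw [← hQP, coeff_reverse]
    exact hr _
  have hQr : aeval γ⁻¹ Q = 0 := by
    have h5 := aeval_reflect γ⁻¹ (inv_ne_zero hγ) P.natDegree P le_rfl
    rw [inv_inv, h4] at h5
    rcases mul_eq_zero.mp h5 with h | h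
    · rw [hQ]; exact h
    · exact absurd h (pow_ne_zero _ hγ)
  have hQd : Q.natDegree ≤ P.natDegree := by rw [hQ]; exact reverse_natDegree_le P
  have hQh : ht Q ≤ ht P := by rw [hQ]; exact ht_reflect_le _ P
  by_cases hl : 0 < Q.leadingCoeff
  · exact ⟨Q, ⟨hQi, hQprim, hl, hQr⟩, hQd, hQh⟩
  · have hl2 : Q.leadingCoeff < 0 := by
      have := leadingCoeff_ne_zero.mpr hQ0
      omega
    refine ⟨-Q, ⟨(Associated.refl Q).neg_right.irreducible hQi, ?_, ?_, ?_⟩, ?_, ?_⟩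
    · intro r hr
      apply hQprim r
      rwa [dvd_neg] at hr
    · rw [leadingCoeff_neg]; omega
    · rw [map_neg, hQr, neg_zero]
    · rw [natDegree_neg]; exact hQd
    · rw [SData.ht_neg]; exact hQh

theorem near_inv (η : ℝ) (hη : η ≠ 0) (m E : ℕ) (hE : 1 ≤ E) (h : Near η m E) :
    Near η⁻¹ m E := by
  obtain ⟨C, hC, hseq⟩ := h
  have hη0 : 0 < |η| := abs_pos.mpr hη
  refine ⟨C * (1 + 2 / |η| ^ 2), ?_, fun K => ?_⟩
  · apply one_le_mul_of_one_le_of_one_le hC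
    have : 0 ≤ 2 / |η| ^ 2 := by positivity
    linarith
  · obtain ⟨B, hB⟩ := exists_nat_gt (2 * C / |η|)
    obtain ⟨P, γ, Z, b1, b2, b3, b4, b5, b6, b7⟩ := hseq (K + B)
    push_cast at b1
    have hK0 : (0 : ℝ) ≤ K := Nat.cast_nonneg _
    have hB0 : (0 : ℝ) ≤ B := Nat.cast_nonneg _
    have hZ0 : 0 < Z := by linarith
    have c2 : 2 * C < |η| * Z := by
      rw [div_lt_iff₀ hη0] at hB
      calc 2 * C < (B : ℝ) * |η| := hB
        _ ≤ Z * |η| := by gcongr; linarith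
        _ = _ := mul_comm _ _
    have c3 : |η - γ| * Z ≤ C := by
      refine le_trans ?_ b7
      gcongr
      exact le_self_pow₀ b2 (by omega)
    have c4 : |η - γ| < |η| / 2 := by
      have : |η - γ| * Z < |η| / 2 * Z := by linarith
      exact lt_of_mul_lt_mul_right this hZ0.le
    have c5 : |η| / 2 ≤ |γ| := by
      have := abs_sub_abs_le_abs_sub η γ
      linarith
    have hγ0 : 0 < |γ| := by linarith
    have hγ : γ ≠ 0 := abs_pos.mp hγ0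
    obtain ⟨P', hP', hd', hh'⟩ := minZ_inv P γ b3 hγ
    have e1 : |η⁻¹ - γ⁻¹| = |η - γ| / (|η| * |γ|) := by
      rw [inv_sub_inv hη hγ, abs_div, abs_mul, abs_sub_comm]
    have e2 : |η⁻¹ - γ⁻¹| ≤ |η - γ| * (2 / |η| ^ 2) := by
      rw [e1, div_le_iff₀ (by positivity)]
      have e3 : 1 ≤ (2 / |η| ^ 2) * (|η| * |γ|) := by
        rw [div_mul_eq_mul_div, le_div_iff₀ (by positivity)]
        nlinarith
      calc |η - γ| = |η - γ| * 1 := (mul_one _).symm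
        _ ≤ |η - γ| * ((2 / |η| ^ 2) * (|η| * |γ|)) := by gcongr
        _ = _ := by ring
    refine ⟨P', γ⁻¹, Z, by linarith, b2, hP', hd'.trans b4, ?_, ?_, ?_⟩
    · have : (ht P' : ℝ) ≤ ht P := by exact_mod_cast hh'
      have h5 : C * Z ≤ C * (1 + 2 / |η| ^ 2) * Z := by
        have : 0 ≤ 2 / |η| ^ 2 := by positivity
        calc C * Z = C * (1 + 0) * Z := by ring
          _ ≤ _ := by gcongr
      linarith
    · rw [e1]; positivity
    · calc |η⁻¹ - γ⁻¹| * Z ^ E ≤ (|η - γ| * (2 / |η| ^ 2)) * Z ^ E := by gcongr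
        _ = (|η - γ| * Z ^ E) * (2 / |η| ^ 2) := by ring
        _ ≤ C * (2 / |η| ^ 2) := by gcongr
        _ ≤ C * (1 + 2 / |η| ^ 2) := by gcongr; linarith

end Pool.Agent.Y897.ST
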