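import Mathlib
import Pool.Agent.Y897.ST.MinP
import Pool.Agent.Y897.ST.Seq

set_option autoImplicit false

namespace Pool.Agent.Y897.ST

open Polynomial Pool.Agent.Helper35

variable {e V Mq : ℕ → ℕ} (X : SData e V Mq)

/-- The powers of the approximants are close to the power of `ξ`. -/
theorem near_pow (hM : Demand e Mq) (hV : ∀ j, 22 ≤ V j) (q B : ℕ) (hq : 1 ≤ q) (j : ℕ)
    (hcop : Nat.Coprime (j + 1) q.factorial) (hVe : V j = q * B * (j + 2))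
    (hj : ∀ K : ℕ, ∃ k, K ≤ k ∧ e k = j) (htr : Transcendental ℚ X.ξ) :
    Near (X.ξ ^ q) (j + 1) (B * (j + 2)) := by
  obtain ⟨C0, hC0, hP⟩ := pow_minZ X hV q hq j hcop
  have hq0 : (0 : ℝ) ≤ q := Nat.cast_nonneg _
  refine ⟨C0 + 2 * q, by linarith, fun K => ?_⟩
  obtain ⟨k, hkK, hek⟩ := hj K
  obtain ⟨P, hPm, hPd, hPh⟩ := hP k hek
  have hN1 := X.N_one_le k
  have hNk : (K : ℝ) ≤ X.N k := by
    have : K ≤ X.N k := hkK.trans (X.k_le_N hM k)
    exact_mod_cast this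
  have hZ1 : (1 : ℝ) ≤ (X.N k : ℝ) ^ (q * (j + 1)) := one_le_pow₀ hN1
  have hNZ : (X.N k : ℝ) ≤ (X.N k : ℝ) ^ (q * (j + 1)) :=
    le_self_pow₀ hN1 (Nat.mul_ne_zero (by omega) (by omega))
  refine ⟨P, X.α k ^ q, (X.N k : ℝ) ^ (q * (j + 1)), hNk.trans hNZ, hZ1, hPm, hPd.le, ?_, ?_, ?_⟩
  · refine hPh.trans ?_
    have : C0 * (X.N k : ℝ) ^ (q * (j + 1)) ≤ (C0 + 2 * q) * (X.N k : ℝ) ^ (q * (j + 1)) := by
      gcongr
      linarith
    exact this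
  · apply abs_pos.mpr
    intro h0
    apply htr
    apply IsAlgebraic.of_pow (n := q) hq
    rw [sub_eq_zero.mp h0]
    exact ((isIntegral_of_int (X.S k) (X.S_props k).1 _ (X.S_props k).2.2.2.2).pow q).isAlgebraic
  · have h1 := X.lo' k
    have h2 := X.hi' k
    have h3 := X.r_pos k
    have h4 : |X.ξ ^ q - X.α k ^ q| ≤ (q : ℝ) * 1 ^ q * |X.ξ - X.α k| := by
      apply abs_pow_sub_pow_leR 1 _ _ le_rfl
      · rw [abs_of_nonneg X.ξ0]; exact X.ξ1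
      · exact X.α_abs hV k
    rw [one_pow, mul_one, abs_of_pos (by linarith : 0 < X.ξ - X.α k)] at h4
    have h5 : X.r k * ((X.N k : ℝ) ^ (q * (j + 1))) ^ (B * (j + 2)) = 1 := by
      unfold SData.r
      rw [hek, hVe, ← pow_mul]
      have e1 : (j + 1) * (q * B * (j + 2)) = q * (j + 1) * (B * (j + 2)) := by ring
      rw [e1, one_div, inv_mul_cancel₀ (by positivity)]
    calc |X.ξ ^ q - X.α k ^ q| * ((X.N k : ℝ) ^ (q * (j + 1))) ^ (B * (j + 2))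
        ≤ ((q : ℝ) * (X.ξ - X.α k)) * ((X.N k : ℝ) ^ (q * (j + 1))) ^ (B * (j + 2)) := by gcongr
      _ ≤ ((q : ℝ) * (2 * X.r k)) * ((X.N k : ℝ) ^ (q * (j + 1))) ^ (B * (j + 2)) := by
          gcongr
          linarith
      _ = 2 * q * (X.r k * ((X.N k : ℝ) ^ (q * (j + 1))) ^ (B * (j + 2))) := by ring
      _ = 2 * q := by rw [h5, mul_one]
      _ ≤ _ := by linarith

end Pool.Agent.Y897.ST
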