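import Mathlib
import Pool.Agent.Helper35.Bound

set_option autoImplicit false

namespace Pool.Agent.Y897.ST

open Polynomial Pool.Agent.Helper35

/-- The part of `R` with exponents congruent to `r` modulo `q`. -/
noncomputable def part (q r : ℕ) (R : ℤ[X]) : ℤ[X] :=
  ∑ n ∈ Finset.range (R.natDegree + 1), monomial n (R.coeff (q * n + r))

theorem coeff_part (q r : ℕ) (hq : 1 ≤ q) (R : ℤ[X]) (a : ℕ) :
    (part q r R).coeff a = R.coeff (q * a + r) := by
  unfold part
  rw [finsetSum_coeff]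
  simp only [coeff_monomial]
  rw [Finset.sum_ite_eq']
  split_ifs with h
  · rfl
  · rw [Finset.mem_range] at h
    symm
    apply coeff_eq_zero_of_natDegree_lt
    have : 1 * a ≤ q * a := Nat.mul_le_mul_right _ hq
    omega

/-- The polynomial with given parts. -/
noncomputable def comb {q : ℕ} (u : Fin q → ℤ[X]) : ℤ[X] :=
  ∑ i : Fin q, X ^ (i : ℕ) * expand ℤ q (u i)

theorem coeff_comb {q : ℕ} (hq : 0 < q) (u : Fin q → ℤ[X]) (N : ℕ) :
    (comb u).coeff N = (u ⟨N % q, Nat.mod_lt N hq⟩).coeff (N / q) := by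
  unfold comb
  rw [finsetSum_coeff, Finset.sum_eq_single (⟨N % q, Nat.mod_lt N hq⟩ : Fin q)]
  · rw [coeff_X_pow_mul', if_pos (Nat.mod_le N q), coeff_expand hq,
      if_pos (Nat.dvd_sub_mod N)]
    congr 1
    have h1 := Nat.div_add_mod N q
    have h2 : N - N % q = q * (N / q) := by omega
    rw [h2, Nat.mul_div_cancel_left _ hq]
  · intro i _ hi
    rw [coeff_X_pow_mul']
    split_ifs with h
    · rw [coeff_expand hq]
      split_ifs with h2
      · exfalso
        apply hi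
        apply Fin.ext
        obtain ⟨c, hc⟩ := h2
        have h3 : N = q * c + i := by omega
        show (i : ℕ) = N % q
        rw [h3, Nat.mul_add_mod, Nat.mod_eq_of_lt i.2]
      · rfl
    · rfl
  · intro h
    exact absurd (Finset.mem_univ _) h

/-- The matrix of multiplication by `R`. -/
noncomputable def mulM (q : ℕ) (R : ℤ[X]) : Matrix (Fin q) (Fin q) ℤ[X] :=
  fun i j => if (j : ℕ) ≤ i then part q (i - j) R else X * part q (q + i - j) R

theorem comb_col {q : ℕ} (hq : 0 < q) (R : ℤ[X]) (j : Fin q) :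
    comb (fun i => mulM q R i j) = R * X ^ (j : ℕ) := by
  ext N
  rw [coeff_comb hq, coeff_mul_X_pow']
  have h1 := Nat.div_add_mod N q
  have h2 := Nat.mod_lt N hq
  have hj := j.2
  unfold mulM
  dsimp only
  split_ifs with h3 h4 h4
  · rw [coeff_part q _ hq]
    congr 1
    omega
  · exfalso
    have := Nat.mod_le N q
    omega
  · rcases Nat.eq_zero_or_pos (N / q) with h5 | h5
    · exfalso
      rw [h5, mul_zero] at h1
      omega
    · obtain ⟨a, ha⟩ : ∃ a, N / q = a + 1 := ⟨N / q - 1, by omega⟩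
      rw [ha, coeff_X_mul, coeff_part q _ hq]
      congr 1
      rw [ha, mul_add, mul_one] at h1
      omega
  · rcases Nat.eq_zero_or_pos (N / q) with h5 | h5
    · rw [h5, coeff_X_mul_zero]
    · exfalso
      have : q * 1 ≤ q * (N / q) := Nat.mul_le_mul_left _ h5
      omega

theorem comb_mulVec {q : ℕ} (hq : 0 < q) (R : ℤ[X]) (v : Fin q → ℤ[X]) :
    comb ((mulM q R).mulVec v) = R * comb v := by
  have h1 : comb ((mulM q R).mulVec v) =
      ∑ j : Fin q, comb (fun i => mulM q R i j) * expand ℤ q (v j) := by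
    unfold comb
    simp only [Matrix.mulVec, dotProduct, map_sum, map_mul, Finset.mul_sum, Finset.sum_mul]
    rw [Finset.sum_comm]
    refine Finset.sum_congr rfl (fun j _ => Finset.sum_congr rfl (fun i _ => ?_))
    ring
  rw [h1]
  unfold comb
  rw [Finset.mul_sum]
  refine Finset.sum_congr rfl (fun j _ => ?_)
  have h2 := comb_col hq R j
  unfold comb at h2
  rw [h2]
  ring

theorem det_ne {q : ℕ} (hq : 0 < q) (R : ℤ[X]) (hR : R ≠ 0) : (mulM q R).det ≠ 0 := by
  intro h0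
  obtain ⟨v, hv, hMv⟩ := Matrix.exists_mulVec_eq_zero_iff.mpr h0
  have h1 := comb_mulVec hq R v
  rw [hMv] at h1
  have h2 : comb (0 : Fin q → ℤ[X]) = 0 := by
    unfold comb
    simp
  rw [h2] at h1
  have h3 : comb v = 0 := (mul_eq_zero.mp h1.symm).resolve_left hR
  apply hv
  funext i
  ext n
  have h4 := coeff_comb hq v (q * n + i)
  rw [h3, coeff_zero] at h4
  have h5 : (⟨(q * n + i) % q, Nat.mod_lt _ hq⟩ : Fin q) = i := by
    apply Fin.ext
    show (q * n + i) % q = i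
    rw [Nat.mul_add_mod, Nat.mod_eq_of_lt i.2]
  have h6 : (q * n + (i : ℕ)) / q = n := by
    rw [Nat.mul_add_div hq, Nat.div_eq_of_lt i.2, add_zero]
  rw [h5, h6] at h4
  rw [← h4]
  rfl

theorem det_dvd {q : ℕ} (hq : 0 < q) (R : ℤ[X]) : R ∣ expand ℤ q (mulM q R).det := by
  refine ⟨comb (fun j => (mulM q R).adjugate j ⟨0, hq⟩), ?_⟩
  rw [← comb_mulVec hq R]
  have h1 : (mulM q R).mulVec (fun j => (mulM q R).adjugate j ⟨0, hq⟩) =
      fun i => ((mulM q R).det • (1 : Matrix (Fin q) (Fin q) ℤ[X])) i ⟨0, hq⟩ := by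
    rw [← Matrix.mul_adjugate]
    rfl
  rw [h1]
  unfold comb
  rw [Finset.sum_eq_single (⟨0, hq⟩ : Fin q)]
  · simp
  · intro i _ hi
    have h2 : ((mulM q R).det • (1 : Matrix (Fin q) (Fin q) ℤ[X])) i ⟨0, hq⟩ = 0 := by
      rw [Matrix.smul_apply, Matrix.one_apply_ne hi, smul_zero]
    show X ^ (i : ℕ) * expand ℤ q
      (((mulM q R).det • (1 : Matrix (Fin q) (Fin q) ℤ[X])) i ⟨0, hq⟩) = 0
    rw [h2, map_zero, mul_zero]
  · intro h
    exact absurd (Finset.mem_univ _) h

/-- The sum of the absolute values of the coefficients. -/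
noncomputable def l1 (P : ℤ[X]) : ℕ := P.sum (fun _ a => a.natAbs)

theorem l1_eq (P : ℤ[X]) (N : ℕ) (hN : P.natDegree < N) :
    l1 P = ∑ i ∈ Finset.range N, (P.coeff i).natAbs := by
  unfold l1
  rw [sum_over_range' P (by simp) N hN]

theorem l1_add (P Q : ℤ[X]) : l1 (P + Q) ≤ l1 P + l1 Q := by
  obtain ⟨N, hN⟩ : ∃ N, N = P.natDegree + Q.natDegree + 1 := ⟨_, rfl⟩
  have h3 : (P + Q).natDegree < N := by
    have := natDegree_add_le P Q
    have h4 : max P.natDegree Q.natDegree ≤ P.natDegree + Q.natDegree :=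
      max_le (Nat.le_add_right _ _) (Nat.le_add_left _ _)
    omega
  rw [l1_eq P N (by omega), l1_eq Q N (by omega), l1_eq _ N h3, ← Finset.sum_add_distrib]
  refine Finset.sum_le_sum (fun i _ => ?_)
  rw [coeff_add]
  exact Int.natAbs_add_le _ _

theorem l1_zero : l1 (0 : ℤ[X]) = 0 := by
  unfold l1
  simp

theorem l1_sum {ι : Type} (s : Finset ι) (f : ι → ℤ[X]) :
    l1 (∑ i ∈ s, f i) ≤ ∑ i ∈ s, l1 (f i) := by
  classical
  induction s using Finset.induction_on with
  | empty => simp [l1_zero]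
  | insert a s ha ih =>
    rw [Finset.sum_insert ha, Finset.sum_insert ha]
    exact (l1_add _ _).trans (Nat.add_le_add_left ih _)

theorem l1_C_mul (a : ℤ) (Q : ℤ[X]) : l1 (C a * Q) ≤ a.natAbs * l1 Q := by
  rw [l1_eq Q (Q.natDegree + 1) (by omega),
    l1_eq (C a * Q) (Q.natDegree + 1) (by have := natDegree_C_mul_le a Q; omega), Finset.mul_sum]
  refine Finset.sum_le_sum (fun i _ => ?_)
  rw [coeff_C_mul, Int.natAbs_mul]

theorem l1_X_mul (Q : ℤ[X]) : l1 (X * Q) ≤ l1 Q := by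
  have h1 : (X * Q).natDegree < Q.natDegree + 1 + 1 := by
    have := natDegree_mul_le (p := (X : ℤ[X])) (q := Q)
    have h2 := natDegree_X_le (R := ℤ)
    omega
  rw [l1_eq Q (Q.natDegree + 1) (by omega), l1_eq (X * Q) _ h1, Finset.sum_range_succ']
  simp only [coeff_X_mul, coeff_X_mul_zero, Int.natAbs_zero, add_zero]
  exact le_rfl

theorem l1_X_pow_mul (n : ℕ) (Q : ℤ[X]) : l1 (X ^ n * Q) ≤ l1 Q := by
  induction n with
  | zero => simp
  | succ n ih =>
    rw [pow_succ', mul_assoc]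
    exact (l1_X_mul _).trans ih

theorem l1_mul (P Q : ℤ[X]) : l1 (P * Q) ≤ l1 P * l1 Q := by
  have h1 : P * Q = ∑ i ∈ Finset.range (P.natDegree + 1), C (P.coeff i) * (X ^ i * Q) := by
    conv_lhs => rw [P.as_sum_range_C_mul_X_pow, Finset.sum_mul]
    refine Finset.sum_congr rfl (fun i _ => ?_)
    ring
  rw [h1, l1_eq P (P.natDegree + 1) (by omega), Finset.sum_mul]
  refine (l1_sum _ _).trans (Finset.sum_le_sum (fun i _ => ?_))
  refine (l1_C_mul _ _).trans ?_
  exact Nat.mul_le_mul_left _ (l1_X_pow_mul i Q)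

theorem l1_one : l1 (1 : ℤ[X]) = 1 := by
  rw [l1_eq (1 : ℤ[X]) 1 (by simp)]
  simp

theorem l1_prod {ι : Type} (s : Finset ι) (f : ι → ℤ[X]) :
    l1 (∏ i ∈ s, f i) ≤ ∏ i ∈ s, l1 (f i) := by
  classical
  induction s using Finset.induction_on with
  | empty => simp [l1_one]
  | insert a s ha ih =>
    rw [Finset.prod_insert ha, Finset.prod_insert ha]
    exact (l1_mul _ _).trans (Nat.mul_le_mul_left _ ih)

theorem l1_neg (P : ℤ[X]) : l1 (-P) = l1 P := by
  rw [l1_eq P (P.natDegree + 1) (by omega), l1_eq (-P) (P.natDegree + 1) (by rw [natDegree_neg]; omega)]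
  refine Finset.sum_congr rfl (fun i _ => ?_)
  rw [coeff_neg, Int.natAbs_neg]

theorem l1_det {q : ℕ} (M : Matrix (Fin q) (Fin q) ℤ[X]) (B : ℕ) (hB : ∀ i j, l1 (M i j) ≤ B) :
    l1 M.det ≤ q.factorial * B ^ q := by
  rw [Matrix.det_apply]
  refine (l1_sum _ _).trans ?_
  have h1 : ∀ σ ∈ (Finset.univ : Finset (Equiv.Perm (Fin q))),
      l1 (Equiv.Perm.sign σ • ∏ i, M (σ i) i) ≤ B ^ q := by
    intro σ _
    have h2 : l1 (∏ i, M (σ i) i) ≤ B ^ q := by
      refine (l1_prod _ _).trans ?_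
      calc ∏ i, l1 (M (σ i) i) ≤ ∏ _i : Fin q, B :=
            Finset.prod_le_prod (fun _ _ => Nat.zero_le _) (fun i _ => hB _ _)
        _ = B ^ q := by rw [Finset.prod_const, Finset.card_univ, Fintype.card_fin]
    rcases Int.units_eq_one_or (Equiv.Perm.sign σ) with h | h
    · rw [h, one_smul]; exact h2
    · rw [h, Units.neg_smul, one_smul, l1_neg]; exact h2
  refine (Finset.sum_le_card_nsmul _ _ _ h1).trans ?_
  rw [Finset.card_univ, Fintype.card_perm, Fintype.card_fin, smul_eq_mul]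

theorem l1_monomial (n : ℕ) (a : ℤ) : l1 (monomial n a) ≤ a.natAbs := by
  have h1 : monomial n a = C a * (X ^ n * 1) := by
    rw [mul_one, C_mul_X_pow_eq_monomial]
  rw [h1]
  refine (l1_C_mul _ _).trans ?_
  have h2 := l1_X_pow_mul n 1
  rw [l1_one] at h2
  calc a.natAbs * l1 (X ^ n * 1) ≤ a.natAbs * 1 := Nat.mul_le_mul_left _ h2
    _ = _ := mul_one _

theorem l1_part (q r : ℕ) (R : ℤ[X]) : l1 (part q r R) ≤ (R.natDegree + 1) * ht R := by
  unfold part
  refine (l1_sum _ _).trans ?_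
  refine (Finset.sum_le_card_nsmul _ _ (ht R) (fun n _ => ?_)).trans ?_
  · exact (l1_monomial _ _).trans (natAbs_coeff_le_ht R _)
  · rw [Finset.card_range, smul_eq_mul]

theorem l1_mulM (q : ℕ) (R : ℤ[X]) (i j : Fin q) :
    l1 (mulM q R i j) ≤ (R.natDegree + 1) * ht R := by
  unfold mulM
  split_ifs
  · exact l1_part _ _ _
  · exact (l1_X_mul _).trans (l1_part _ _ _)

/-- The polynomial of the powers of the roots. -/
theorem exists_norm (q : ℕ) (hq : 0 < q) (R : ℤ[X]) (hR : R ≠ 0) :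
    ∃ F : ℤ[X], F ≠ 0 ∧ R ∣ expand ℤ q F ∧
      l1 F ≤ q.factorial * ((R.natDegree + 1) * ht R) ^ q :=
  ⟨(mulM q R).det, det_ne hq R hR, det_dvd hq R, l1_det _ _ (l1_mulM q R)⟩

theorem mm_le_l1 (P : ℤ[X]) : mm P ≤ l1 P := by
  unfold mm
  refine (mahlerMeasure_le_sum_norm_coeff _).trans ?_
  rw [sum_over_range' _ (by simp) (P.natDegree + 1)
    (by rw [natDegree_map_eq_of_injective (RingHom.injective_int _)]; omega),
    l1_eq P (P.natDegree + 1) (by omega)]
  push_cast
  refine Finset.sum_le_sum (fun i _ => ?_)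
  rw [coeff_map, eq_intCast, Complex.norm_intCast, Nat.cast_natAbs, Int.cast_abs]

end Pool.Agent.Y897.ST
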