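import Mathlib
import Pool.Agent.Y897.ST.Cof

set_option autoImplicit false

namespace Pool.Agent.Y897.ST

open Polynomial Pool.Agent.Helper35 IntermediateField

theorem minpoly_of_intC (P : ℤ[X]) (hP : Irreducible (P.map (Int.castRingHom ℚ))) (β : ℂ)
    (h : aeval β P = 0) :
    minpoly ℚ β = P.map (Int.castRingHom ℚ) * C ((P.leadingCoeff : ℚ)⁻¹) := by
  have h1 : aeval β (P.map (Int.castRingHom ℚ)) = 0 := by rw [aeval_ratmap]; exact h
  have h2 := minpoly.eq_of_irreducible hP h1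
  rw [← h2, leadingCoeff_map_of_injective (RingHom.injective_int _)]
  simp

theorem minpoly_natDegreeC (P : ℤ[X]) (hP : Irreducible (P.map (Int.castRingHom ℚ))) (β : ℂ)
    (h : aeval β P = 0) : (minpoly ℚ β).natDegree = P.natDegree := by
  have hl : (P.leadingCoeff : ℚ) ≠ 0 := by
    have h0 : P ≠ 0 := by
      rintro rfl
      simp at hP
    exact_mod_cast leadingCoeff_ne_zero.mpr h0
  rw [minpoly_of_intC P hP β h, natDegree_mul_C (inv_ne_zero hl),
    natDegree_map_eq_of_injective (RingHom.injective_int _)]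

theorem minpoly_coeff_zeroC (P : ℤ[X]) (hP : Irreducible (P.map (Int.castRingHom ℚ))) (β : ℂ)
    (h : aeval β P = 0) : (minpoly ℚ β).coeff 0 = (P.coeff 0 : ℚ) / (P.leadingCoeff : ℚ) := by
  rw [minpoly_of_intC P hP β h, coeff_mul_C, coeff_map]
  simp [div_eq_mul_inv]

section general

variable {F E : Type} [Field F] [CharZero F] [Field E] [Algebra F E]

theorem norm_rel (ρ : E) (hρ : IsIntegral F ρ) (q : ℕ) :
    ∃ f : ℕ, (minpoly F ρ).natDegree = (minpoly F (ρ ^ q)).natDegree * f ∧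
      ((-1) ^ (minpoly F ρ).natDegree * (minpoly F ρ).coeff 0) ^ q =
        ((-1) ^ (minpoly F (ρ ^ q)).natDegree * (minpoly F (ρ ^ q)).coeff 0) ^ f := by
  have hm : ρ ∈ F⟮ρ⟯ := mem_adjoin_simple_self F ρ
  have hfd : FiniteDimensional F F⟮ρ⟯ := adjoin.finiteDimensional hρ
  obtain ⟨x, hx⟩ : ∃ x : F⟮ρ⟯, x = (⟨ρ, hm⟩ : F⟮ρ⟯) ^ q := ⟨_, rfl⟩
  have hxρ : algebraMap F⟮ρ⟯ E x = ρ ^ q := by rw [hx, map_pow]; rfl
  have hmin : minpoly F (ρ ^ q) = minpoly F x := by
    rw [← hxρ]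
    exact minpoly.algebraMap_eq (algebraMap F⟮ρ⟯ E).injective x
  have hxi : IsIntegral F x := Algebra.IsIntegral.isIntegral x
  have h1 := norm_gen F⟮ρ⟯ ρ hρ rfl hm
  have h2 := Algebra.norm_eq_norm_adjoin F x
  have h3 := norm_gen F⟮x⟯ x hxi rfl (mem_adjoin_simple_self F x)
  have h4 : Algebra.norm F (AdjoinSimple.gen F x) =
      (-1) ^ (minpoly F x).natDegree * (minpoly F x).coeff 0 := h3
  refine ⟨Module.finrank F⟮x⟯ F⟮ρ⟯, ?_, ?_⟩
  · rw [hmin, ← adjoin.finrank hρ, ← adjoin.finrank hxi]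
    exact (Module.finrank_mul_finrank F F⟮x⟯ F⟮ρ⟯).symm
  · rw [hmin, ← h4, ← h2, ← h1, hx, map_pow]

end general

theorem int_norm_rel (A S : ℤ[X]) (hA : Irreducible (A.map (Int.castRingHom ℚ)))
    (hS : Irreducible (S.map (Int.castRingHom ℚ))) (ρ : ℂ) (q : ℕ) (h1 : aeval ρ A = 0)
    (h2 : aeval (ρ ^ q) S = 0) :
    ∃ f : ℕ, A.natDegree = S.natDegree * f ∧
      (A.coeff 0).natAbs ^ q * S.leadingCoeff.natAbs ^ f =
        (S.coeff 0).natAbs ^ f * A.leadingCoeff.natAbs ^ q := by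
  have hA0 : A ≠ 0 := by rintro rfl; simp at hA
  have hS0 : S ≠ 0 := by rintro rfl; simp at hS
  have hρ : IsIntegral ℚ ρ := (alg_root A hA0 ρ h1).isIntegral
  obtain ⟨f, hf1, hf2⟩ := norm_rel (F := ℚ) ρ hρ q
  rw [minpoly_natDegreeC A hA ρ h1, minpoly_natDegreeC S hS _ h2] at hf1
  refine ⟨f, hf1, ?_⟩
  have h3 := congrArg abs hf2
  rw [minpoly_coeff_zeroC A hA ρ h1, minpoly_coeff_zeroC S hS _ h2, abs_pow, abs_pow, abs_mul,
    abs_mul, abs_pow, abs_pow, abs_neg, abs_one, one_pow, one_pow, one_mul, one_mul, abs_div,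
    abs_div, div_pow, div_pow] at h3
  have hlS : (0 : ℚ) < |(S.leadingCoeff : ℚ)| :=
    abs_pos.mpr (by exact_mod_cast leadingCoeff_ne_zero.mpr hS0)
  have hlA : (0 : ℚ) < |(A.leadingCoeff : ℚ)| :=
    abs_pos.mpr (by exact_mod_cast leadingCoeff_ne_zero.mpr hA0)
  rw [div_eq_div_iff (by positivity) (by positivity)] at h3
  have h5 : (((((A.coeff 0).natAbs ^ q * S.leadingCoeff.natAbs ^ f : ℕ) : ℤ) : ℚ)) =
      (((((S.coeff 0).natAbs ^ f * A.leadingCoeff.natAbs ^ q : ℕ) : ℤ) : ℚ)) := by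
    push_cast
    exact h3
  exact_mod_cast h5

theorem expand_prim (q : ℕ) (hq : 0 < q) (P : ℤ[X]) (hP : P.IsPrimitive) :
    (expand ℤ q P).IsPrimitive := by
  intro r hr
  apply hP r
  rw [C_dvd_iff_dvd_coeff] at hr ⊢
  intro i
  have h := hr (q * i)
  rw [coeff_expand hq, if_pos (dvd_mul_right q i), Nat.mul_div_cancel_left _ hq] at h
  exact h

variable {e V Mq : ℕ → ℕ} (X : SData e V Mq)

/-- At the good stages `S_k(X ^ q)` is irreducible. -/
theorem expand_irred (q : ℕ) (hq : 1 ≤ q) (k : ℕ) (hE : Nat.Coprime q (EA k))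
    (hd : Nat.Coprime q (e k + 1)) : Irreducible (expand ℤ q (X.S k)) := by
  obtain ⟨hirr, hprim, hdegS, _, _⟩ := X.S_props k
  obtain ⟨T, hT⟩ : ∃ T, T = expand ℤ q (X.S k) := ⟨_, rfl⟩
  have hTprim : T.IsPrimitive := by rw [hT]; exact expand_prim q hq _ hprim
  have hTdeg : T.natDegree = (e k + 1) * q := by rw [hT, natDegree_expand, hdegS]
  have hT0 : T ≠ 0 := hTprim.ne_zero
  have hTu : ¬ IsUnit T := by
    intro hu
    have h := natDegree_eq_zero_of_isUnit hu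
    rw [hTdeg] at h
    have : 0 < (e k + 1) * q := Nat.mul_pos (by omega) hq
    omega
  obtain ⟨A, hAi, hAT⟩ := WfDvdMonoid.exists_irreducible_factor hTu hT0
  have hAprim : A.IsPrimitive := isPrimitive_of_dvd hTprim hAT
  have hA0 : A ≠ 0 := hAi.ne_zero
  have hAdeg : A.natDegree ≠ 0 := by
    intro h0
    apply hAi.not_isUnit
    rw [eq_C_of_natDegree_eq_zero h0] at hAprim ⊢
    exact isUnit_C.mpr (hAprim _ dvd_rfl)
  have hAQ : Irreducible (A.map (Int.castRingHom ℚ)) :=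
    (IsPrimitive.Int.irreducible_iff_irreducible_map_cast hAprim).mp hAi
  obtain ⟨ρ, hρ⟩ : ∃ ρ : ℂ, aeval ρ A = 0 := by
    have h1 : (A.map (algebraMap ℤ ℂ)).degree ≠ 0 := by
      intro h2
      have h3 := natDegree_eq_of_degree_eq_some (n := 0) (by simpa using h2)
      rw [natDegree_map_eq_of_injective (RingHom.injective_int _)] at h3
      exact hAdeg h3
    obtain ⟨z, hz⟩ := IsAlgClosed.exists_root (A.map (algebraMap ℤ ℂ)) h1
    refine ⟨z, ?_⟩
    rw [IsRoot.def, eval_map_algebraMap] at hz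
    exact hz
  obtain ⟨c, hc⟩ := hAT
  have hSρ : aeval (ρ ^ q) (X.S k) = 0 := by
    rw [← expand_aeval, ← hT, hc, map_mul, hρ, zero_mul]
  obtain ⟨f, hf1, hf2⟩ := int_norm_rel A (X.S k) hAQ hirr ρ q hρ hSρ
  rw [hdegS] at hf1
  -- valuations
  haveI : Fact (X.p k).Prime := ⟨X.prime k⟩
  have hcoef : (X.S k).coeff 0 = A.coeff 0 * c.coeff 0 := by
    have h := congrArg (fun P : ℤ[X] => P.coeff 0) hc
    simp only [mul_coeff_zero] at h
    rw [hT, coeff_expand hq, if_pos (dvd_zero q), Nat.zero_div] at h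
    exact h
  have hpS : ¬ X.p k ∣ ((X.S k).coeff 0).natAbs := by
    intro h
    exact p_ndvd X k (Int.natCast_dvd.mpr h)
  have hpA : ¬ X.p k ∣ (A.coeff 0).natAbs := by
    intro h
    apply hpS
    rw [hcoef, Int.natAbs_mul]
    exact Dvd.dvd.mul_right h _
  have hpT : ¬ X.p k ∣ (TD (e k)).T.leadingCoeff.natAbs := by
    intro h
    exact X.plead k (Int.natCast_dvd.mpr h)
  have hSc0 : ((X.S k).coeff 0).natAbs ≠ 0 := by
    have := X.S_coeff_zero k
    exact Int.natAbs_ne_zero.mpr this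
  have hAc0 : (A.coeff 0).natAbs ≠ 0 := by
    intro h
    apply hSc0
    rw [hcoef, Int.natAbs_mul, h, zero_mul]
  have hlA0 : A.leadingCoeff.natAbs ≠ 0 :=
    Int.natAbs_ne_zero.mpr (leadingCoeff_ne_zero.mpr hA0)
  have hlT0 : (TD (e k)).T.leadingCoeff.natAbs ≠ 0 :=
    Int.natAbs_ne_zero.mpr (leadingCoeff_ne_zero.mpr (TD (e k)).irr.ne_zero)
  have hN0 : X.N k ≠ 0 := by have := X.N_pos k; omega
  rw [lead_natAbs] at hf2
  have hval := congrArg (padicValNat (X.p k)) hf2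
  have hNval : padicValNat (X.p k) (X.N k ^ (e k + 1)) = (e k + 1) * EA k := by
    unfold SData.N
    rw [← pow_mul, padicValNat.prime_pow, mul_comm]
  rw [padicValNat.mul (pow_ne_zero _ hAc0)
      (pow_ne_zero _ (mul_ne_zero (pow_ne_zero _ hN0) hlT0)),
    padicValNat.mul (pow_ne_zero _ hSc0) (pow_ne_zero _ hlA0),
    padicValNat.pow, padicValNat.pow, padicValNat.pow, padicValNat.pow,
    padicValNat.mul (pow_ne_zero _ hN0) hlT0, hNval,
    padicValNat.eq_zero_of_not_dvd hpA, padicValNat.eq_zero_of_not_dvd hpS,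
    padicValNat.eq_zero_of_not_dvd hpT, mul_zero, mul_zero, zero_add, zero_add, add_zero] at hval
  have hqf : q ∣ f := by
    have h1 : q ∣ f * ((e k + 1) * EA k) := ⟨_, hval⟩
    exact (Nat.Coprime.mul_right hd hE).dvd_of_dvd_mul_right h1
  have hf0 : 0 < f := by
    rcases Nat.eq_zero_or_pos f with h | h
    · exfalso
      rw [h, mul_zero] at hf1
      exact hAdeg hf1
    · exact h
  have hqf2 : q ≤ f := Nat.le_of_dvd hf0 hqf
  have hc0 : c ≠ 0 := by
    rintro rfl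
    rw [mul_zero] at hc
    exact hT0 hc
  have hdegc : c.natDegree = 0 := by
    have h := congrArg natDegree hc
    rw [natDegree_mul hA0 hc0, hTdeg, hf1] at h
    have : (e k + 1) * q ≤ (e k + 1) * f := Nat.mul_le_mul_left _ hqf2
    omega
  have hcu : IsUnit c := by
    rw [eq_C_of_natDegree_eq_zero hdegc]
    apply isUnit_C.mpr
    apply hTprim
    rw [← eq_C_of_natDegree_eq_zero hdegc, hc]
    exact dvd_mul_left _ _
  rw [← hT, hc]
  exact (associated_mul_unit_right A c hcu).irreducible hAi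

end Pool.Agent.Y897.ST
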