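import Mathlib
import Pool.Agent.Y897.ST.Irr
import Pool.Agent.Y897.ST.Det
import Pool.Agent.Y897.ST.BPow

set_option autoImplicit false

namespace Pool.Agent.Y897.ST

open Polynomial Pool.Agent.Helper35

theorem exists_irr_factor (γ : ℂ) (F : ℤ[X]) : F ≠ 0 → aeval γ F = 0 →
    ∃ F1 : ℤ[X], Irreducible F1 ∧ F1 ∣ F ∧ aeval γ F1 = 0 := by
  induction F using WfDvdMonoid.induction_on_irreducible with
  | zero => intro h; exact absurd rfl h
  | unit u hu =>
    intro _ h0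
    exfalso
    obtain ⟨r, hr, rfl⟩ := Polynomial.isUnit_iff.mp hu
    rw [aeval_C] at h0
    have h1 : ((r : ℤ) : ℂ) = 0 := h0
    have h2 : r = 0 := by exact_mod_cast h1
    exact hr.ne_zero h2
  | mul a p ha hp ih =>
    intro _ h0
    rw [map_mul] at h0
    rcases mul_eq_zero.mp h0 with h | h
    · exact ⟨p, hp, dvd_mul_right _ _, h⟩
    · obtain ⟨F1, h1, h2, h3⟩ := ih ha h
      exact ⟨F1, h1, h2.mul_left p, h3⟩

theorem unit_mul (P u : ℤ[X]) (hu : IsUnit u) :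
    (∀ x : ℝ, |aeval x (P * u)| = |aeval x P|) ∧ ht (P * u) = ht P ∧
      (P * u).natDegree = P.natDegree := by
  obtain ⟨r, hr, rfl⟩ := Polynomial.isUnit_iff.mp hu
  rcases Int.isUnit_iff.mp hr with h | h
  · subst h; simp
  · subst h
    have h1 : P * C (-1 : ℤ) = -P := by simp
    rw [h1]
    refine ⟨fun x => by rw [map_neg, abs_neg], SData.ht_neg P, natDegree_neg P⟩

theorem dvd_expand (q : ℕ) (hq : 0 < q) (R F : ℤ[X]) (hR : Irreducible R) (hRd : R.natDegree ≠ 0)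
    (hF : Irreducible F) (hFd : F.natDegree ≠ 0) (ρ : ℂ) (h1 : aeval ρ R = 0)
    (h2 : aeval (ρ ^ q) F = 0) : R ∣ expand ℤ q F := by
  have hRp : R.IsPrimitive := hR.isPrimitive hRd
  have hFp : F.IsPrimitive := hF.isPrimitive hFd
  have hRQ : Irreducible (R.map (Int.castRingHom ℚ)) :=
    (IsPrimitive.Int.irreducible_iff_irreducible_map_cast hRp).mp hR
  rw [IsPrimitive.Int.dvd_iff_map_cast_dvd_map_cast _ _ hRp]
  have h3 : aeval ρ ((expand ℤ q F).map (Int.castRingHom ℚ)) = 0 := by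
    rw [aeval_ratmap, expand_aeval, h2]
  have h4 := minpoly.dvd ℚ ρ h3
  rw [minpoly_of_intC R hRQ ρ h1] at h4
  exact (dvd_mul_right _ _).trans h4

variable {e V Mq : ℕ → ℕ} (X : SData e V Mq)

/-- The lower bound for irreducible polynomials at a root of `ξ`. -/
theorem root_irr (q B : ℕ) (hq : 1 ≤ q) (hB : 40 * q ≤ B)
    (hgood : ∀ k, e k ≠ 0 → Nat.Coprime q (EA k) ∧ Nat.Coprime q (e k + 1)) (hM : Demand e Mq)
    (hV : ∀ j, 22 ≤ V j) (hVe : ∀ j, V j = q * B * (j + 2)) (ζ : ℝ) (hζ0 : 0 ≤ ζ) (hζ1 : ζ ≤ 1)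
    (hζ : ζ ^ q = X.ξ) (m : ℕ) (hm : 1 ≤ m) :
    ∃ c : ℝ, 0 < c ∧ ∀ R : ℤ[X], Irreducible R → R.natDegree = m →
      c ≤ |aeval ζ R| * (ht R : ℝ) ^ (B * (m + 1) + (2 * q ^ 2 * B + q)) := by
  have hqB : 40 ≤ q * B := by
    calc 40 ≤ 1 * (40 * q) := by omega
      _ ≤ q * B := Nat.mul_le_mul hq hB
  have hne := ne_all X (q * B) hqB hM hV (fun j => (hVe j).le)
  obtain ⟨c1, hc1, hcc1⟩ := pred_bound X hne m
  obtain ⟨c3, hc3⟩ : ∃ c3 : ℝ, c3 = min c1 1 := ⟨_, rfl⟩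
  have hc3pos : 0 < c3 := by rw [hc3]; exact lt_min hc1 one_pos
  have hc31 : c3 ≤ c1 := by rw [hc3]; exact min_le_left _ _
  have hc32 : c3 ≤ 1 := by rw [hc3]; exact min_le_right _ _
  obtain ⟨E1, hE1⟩ : ∃ E1 : ℕ, E1 = 40 * (m + 1) + 2 * (q * B) := ⟨_, rfl⟩
  obtain ⟨Kg, hKg⟩ : ∃ Kg : ℝ, Kg = ((q * m : ℕ) + 1 : ℝ) * (2 ^ (q * m) *
    (((q * m : ℕ) : ℝ) + 1)) := ⟨_, rfl⟩
  have hKg1 : 1 ≤ Kg := by
    rw [hKg]
    have h0 : (0 : ℝ) ≤ ((q * m : ℕ) : ℝ) := Nat.cast_nonneg _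
    have h1 : (1 : ℝ) ≤ ((q * m : ℕ) : ℝ) + 1 := by linarith
    have h2 : (1 : ℝ) ≤ 2 ^ (q * m) := one_le_pow₀ (by norm_num)
    exact one_le_mul_of_one_le_of_one_le h1 (one_le_mul_of_one_le_of_one_le h2 h1)
  obtain ⟨Kf, hKf⟩ : ∃ Kf : ℝ, Kf = 2 ^ m * ((q.factorial : ℝ) * ((m : ℝ) + 1) ^ q) := ⟨_, rfl⟩
  have hKf1 : 1 ≤ Kf := by
    rw [hKf]
    have h0 : (0 : ℝ) ≤ (m : ℝ) := Nat.cast_nonneg _
    have h1 : (1 : ℝ) ≤ ((m : ℝ) + 1) ^ q := one_le_pow₀ (by linarith)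
    have h2 : (1 : ℝ) ≤ 2 ^ m := one_le_pow₀ (by norm_num)
    have h3 : (1 : ℝ) ≤ (q.factorial : ℝ) := by exact_mod_cast Nat.factorial_pos q
    exact one_le_mul_of_one_le_of_one_le h2 (one_le_mul_of_one_le_of_one_le h3 h1)
  obtain ⟨c, hc⟩ : ∃ c : ℝ, c = c3 / (Kg * Kf ^ (E1 + 1)) := ⟨_, rfl⟩
  have hKK : 0 < Kg * Kf ^ (E1 + 1) := by positivity
  have hcpos : 0 < c := by rw [hc]; positivity
  have hc1' : c ≤ 1 := by
    rw [hc, div_le_iff₀ hKK]
    have : 1 ≤ Kg * Kf ^ (E1 + 1) := one_le_mul_of_one_le_of_one_le hKg1 (one_le_pow₀ hKf1)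
    linarith
  refine ⟨c, hcpos, fun R hR hRm => ?_⟩
  have hRd : R.natDegree ≠ 0 := by omega
  have hR0 := hR.ne_zero
  have hRp : R.IsPrimitive := hR.isPrimitive hRd
  have hRQ : Irreducible (R.map (Int.castRingHom ℚ)) :=
    (IsPrimitive.Int.irreducible_iff_irreducible_map_cast hRp).mp hR
  obtain ⟨H, hH⟩ : ∃ H : ℝ, H = ht R := ⟨_, rfl⟩
  have hH1 : 1 ≤ H := by rw [hH]; exact_mod_cast ht_pos hR0
  rw [← hH]
  -- a complex root
  obtain ⟨ρ, hρ⟩ : ∃ ρ : ℂ, aeval ρ R = 0 := by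
    have h1 : (R.map (algebraMap ℤ ℂ)).degree ≠ 0 := by
      intro h2
      have h3 := natDegree_eq_of_degree_eq_some (n := 0) (by simpa using h2)
      rw [natDegree_map_eq_of_injective (RingHom.injective_int _)] at h3
      exact hRd h3
    obtain ⟨z, hz⟩ := IsAlgClosed.exists_root (R.map (algebraMap ℤ ℂ)) h1
    refine ⟨z, ?_⟩
    rw [IsRoot.def, eval_map_algebraMap] at hz
    exact hz
  obtain ⟨F, hF0, hRF, hFl⟩ := exists_norm q hq R hR0
  have hFρ : aeval (ρ ^ q) F = 0 := by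
    obtain ⟨G, hG⟩ := hRF
    rw [← expand_aeval, hG, map_mul, hρ, zero_mul]
  obtain ⟨F1, hF1i, hF1F, hF1ρ⟩ := exists_irr_factor (ρ ^ q) F hF0 hFρ
  have hF1d : F1.natDegree ≠ 0 := by
    intro h0
    rw [eq_C_of_natDegree_eq_zero h0, aeval_C] at hF1ρ
    have h1 : ((F1.coeff 0 : ℤ) : ℂ) = 0 := hF1ρ
    have h2 : F1.coeff 0 = 0 := by exact_mod_cast h1
    apply hF1i.ne_zero
    rw [eq_C_of_natDegree_eq_zero h0, h2, C_0]
  have hF1p : F1.IsPrimitive := hF1i.isPrimitive hF1d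
  have hF1Q : Irreducible (F1.map (Int.castRingHom ℚ)) :=
    (IsPrimitive.Int.irreducible_iff_irreducible_map_cast hF1p).mp hF1i
  have hF1m : F1.natDegree ≤ m := by
    obtain ⟨f, hf1, _⟩ := int_norm_rel R F1 hRQ hF1Q ρ q hρ hF1ρ
    rw [hRm] at hf1
    rw [hf1]
    apply Nat.le_mul_of_pos_right
    rcases Nat.eq_zero_or_pos f with h | h
    · rw [h, mul_zero] at hf1; omega
    · exact h
  have hRF1 : R ∣ expand ℤ q F1 := dvd_expand q hq R F1 hR hRd hF1i hF1d ρ hρ hF1ρ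
  obtain ⟨hF, hhF⟩ : ∃ hF : ℝ, hF = ht F1 := ⟨_, rfl⟩
  have hhF1 : 1 ≤ hF := by rw [hhF]; exact_mod_cast ht_pos hF1i.ne_zero
  -- the generic estimate
  have hgen : c3 ≤ |aeval X.ξ F1| * hF ^ E1 →
      c ≤ |aeval ζ R| * H ^ (B * (m + 1) + (2 * q ^ 2 * B + q)) := by
    intro hlow
    obtain ⟨G, hG⟩ := hRF1
    have hexp0 : expand ℤ q F1 ≠ 0 := by
      intro h0
      exact hF1i.ne_zero ((expand_eq_zero (by omega)).mp h0)
    have hG0 : G ≠ 0 := by
      rintro rfl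
      rw [mul_zero] at hG
      exact hexp0 hG
    have hval : |aeval X.ξ F1| = |aeval ζ R| * |aeval ζ G| := by
      rw [← hζ, ← expand_aeval, hG, map_mul, abs_mul]
    have hGd : G.natDegree ≤ q * m := by
      have h1 := congrArg natDegree hG
      rw [natDegree_mul hR0 hG0, natDegree_expand] at h1
      have h2 : F1.natDegree * q ≤ m * q := Nat.mul_le_mul_right _ hF1m
      rw [mul_comm q m]
      omega
    have hGdr : (G.natDegree : ℝ) ≤ ((q * m : ℕ) : ℝ) := by exact_mod_cast hGd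
    have hhG : (ht G : ℝ) ≤ 2 ^ (q * m) * ((((q * m : ℕ) : ℝ) + 1) * hF) := by
      have h1 := ht_le_mm G
      have h2 : mm G ≤ mm (expand ℤ q F1) := by
        rw [hG, mm_mul]
        have h3 := one_le_mm hR0
        have h4 := one_le_mm hG0
        nlinarith
      have h3 := mm_le_ht (expand ℤ q F1)
      rw [ht_expandq q (by omega), natDegree_expand, ← hhF] at h3
      have h4 : (((F1.natDegree * q : ℕ) : ℝ) + 1) * hF ≤ (((q * m : ℕ) : ℝ) + 1) * hF := by
        have : ((F1.natDegree * q : ℕ) : ℝ) ≤ ((q * m : ℕ) : ℝ) := by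
          have : F1.natDegree * q ≤ q * m := by
            rw [mul_comm q m]; exact Nat.mul_le_mul_right _ hF1m
          exact_mod_cast this
        gcongr
      have h5 : (2 : ℝ) ^ G.natDegree ≤ 2 ^ (q * m) := pow_le_pow_right₀ (by norm_num) hGd
      have h6 : 0 ≤ mm G := by linarith [one_le_mm hG0]
      calc (ht G : ℝ) ≤ 2 ^ G.natDegree * mm G := h1
        _ ≤ 2 ^ (q * m) * mm G := by gcongr
        _ ≤ 2 ^ (q * m) * ((((q * m : ℕ) : ℝ) + 1) * hF) := by
            gcongr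
            exact h2.trans (h3.trans h4)
    have hGζ : |aeval ζ G| ≤ Kg * hF := by
      have h1 := abs_aeval_le G ζ (by rw [abs_of_nonneg hζ0]; exact hζ1)
      calc |aeval ζ G| ≤ ((G.natDegree : ℝ) + 1) * ht G := h1
        _ ≤ (((q * m : ℕ) : ℝ) + 1) * (2 ^ (q * m) * ((((q * m : ℕ) : ℝ) + 1) * hF)) := by
            gcongr
        _ = Kg * hF := by rw [hKg]; ring
    have hhFH : hF ≤ Kf * H ^ q := by
      obtain ⟨F2, hF2⟩ := hF1F
      have hF20 : F2 ≠ 0 := by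
        rintro rfl
        rw [mul_zero] at hF2
        exact hF0 hF2
      have h1 := ht_le_mm F1
      have h2 : mm F1 ≤ mm F := by
        rw [hF2, mm_mul]
        have h3 := one_le_mm hF1i.ne_zero
        have h4 := one_le_mm hF20
        nlinarith
      have h3 := mm_le_l1 F
      have h4 : (l1 F : ℝ) ≤ (q.factorial : ℝ) * (((m : ℝ) + 1) * H) ^ q := by
        rw [hH, ← hRm]
        exact_mod_cast hFl
      have h5 : (2 : ℝ) ^ F1.natDegree ≤ 2 ^ m := pow_le_pow_right₀ (by norm_num) hF1m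
      have h6 : 0 ≤ mm F1 := by linarith [one_le_mm hF1i.ne_zero]
      calc hF = (ht F1 : ℝ) := hhF
        _ ≤ 2 ^ F1.natDegree * mm F1 := h1
        _ ≤ 2 ^ m * mm F1 := by gcongr
        _ ≤ 2 ^ m * ((q.factorial : ℝ) * (((m : ℝ) + 1) * H) ^ q) := by
            gcongr
            exact h2.trans (h3.trans h4)
        _ = Kf * H ^ q := by rw [hKf, mul_pow]; ring
    have h1 : c3 ≤ |aeval ζ R| * (Kg * Kf ^ (E1 + 1)) * H ^ (q * (E1 + 1)) := by
      calc c3 ≤ |aeval X.ξ F1| * hF ^ E1 := hlow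
        _ = |aeval ζ R| * |aeval ζ G| * hF ^ E1 := by rw [hval]
        _ ≤ |aeval ζ R| * (Kg * hF) * hF ^ E1 := by gcongr
        _ = |aeval ζ R| * Kg * hF ^ (E1 + 1) := by ring
        _ ≤ |aeval ζ R| * Kg * (Kf * H ^ q) ^ (E1 + 1) := by gcongr
        _ = _ := by rw [mul_pow, ← pow_mul]; ring
    have h2 : c ≤ |aeval ζ R| * H ^ (q * (E1 + 1)) := by
      rw [hc, div_le_iff₀ hKK]
      calc c3 ≤ _ := h1
        _ = _ := by ring
    refine h2.trans ?_
    have hle : q * (E1 + 1) ≤ B * (m + 1) + (2 * q ^ 2 * B + q) := by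
      rw [hE1]
      have h3 : q * (40 * (m + 1) + 2 * (q * B) + 1) =
          40 * q * (m + 1) + (2 * q ^ 2 * B + q) := by ring
      rw [h3]
      exact Nat.add_le_add_right (Nat.mul_le_mul_right _ hB) _
    have h3 : H ^ (q * (E1 + 1)) ≤ H ^ (B * (m + 1) + (2 * q ^ 2 * B + q)) :=
      pow_le_pow_right₀ hH1 hle
    gcongr
  by_cases hk : ∀ k, ¬ X.S k ∣ F1
  · apply hgen
    have h1 := hcc1 F1 hk hF1i.ne_zero hF1m
    rw [← hhF] at h1
    calc c3 ≤ c1 := hc31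
      _ ≤ |aeval X.ξ F1| * hF ^ (40 * (m + 1)) := h1
      _ ≤ _ := by
          have : hF ^ (40 * (m + 1)) ≤ hF ^ E1 := pow_le_pow_right₀ hhF1 (by omega)
          gcongr
  · push Not at hk
    obtain ⟨k, u, hu⟩ := hk
    have hSi := X.S_irr k
    have huu : IsUnit u := by
      rcases hF1i.isUnit_or_isUnit hu with h | h
      · exact absurd h hSi.not_isUnit
      · exact h
    obtain ⟨hu1, hu2, hu3⟩ := unit_mul (X.S k) u huu
    have hspec := X.spec_lower hM hV k 1 one_ne_zero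
    rw [C_1, one_mul] at hspec
    by_cases hek : e k = 0
    · apply hgen
      rw [hhF, hu, hu1, hu2]
      rw [hek, hVe] at hspec
      calc c3 ≤ 1 := hc32
        _ ≤ _ := hspec
        _ ≤ _ := by
            have h1 : (1 : ℝ) ≤ ht (X.S k) := by exact_mod_cast ht_pos hSi.ne_zero
            have h2 : (ht (X.S k) : ℝ) ^ (q * B * (0 + 2)) ≤ (ht (X.S k) : ℝ) ^ E1 := by
              apply pow_le_pow_right₀ h1
              rw [hE1]
              have : q * B * (0 + 2) = 2 * (q * B) := by ring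
              omega
            gcongr
    · obtain ⟨hg1, hg2⟩ := hgood k hek
      have hTi := expand_irred X q hq k hg1 hg2
      have hRT : R ∣ expand ℤ q (X.S k) := by
        have h1 : expand ℤ q F1 = expand ℤ q (X.S k) * expand ℤ q u := by rw [hu, map_mul]
        obtain ⟨v, hv⟩ := huu.exists_right_inv
        have h2 : expand ℤ q (X.S k) = expand ℤ q F1 * expand ℤ q v := by
          rw [h1, mul_assoc, ← map_mul, hv, map_one, mul_one]
        rw [h2]
        exact Dvd.dvd.mul_right hRF1 _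
      obtain ⟨w, hw⟩ := hRT
      have hwu : IsUnit w := by
        rcases hTi.isUnit_or_isUnit hw with h | h
        · exact absurd h hR.not_isUnit
        · exact h
      obtain ⟨hw1, hw2, hw3⟩ := unit_mul R w hwu
      have hval : |aeval X.ξ (X.S k)| = |aeval ζ R| := by
        rw [← hζ, ← expand_aeval, hw, hw1]
      have hhts : (ht (X.S k) : ℝ) = H := by
        rw [hH, ← hw2, ← hw, ht_expandq q (by omega)]
      have hdeg : m = (e k + 1) * q := by
        rw [← hRm, ← hw3, ← hw, natDegree_expand, (X.S_props k).2.2.1]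
      rw [hval, hhts, hVe] at hspec
      calc c ≤ 1 := hc1'
        _ ≤ |aeval ζ R| * H ^ (q * B * (e k + 2)) := hspec
        _ ≤ _ := by
            have h2 : q * B * (e k + 2) ≤ B * (m + 1) + (2 * q ^ 2 * B + q) := by
              rw [hdeg]
              have h3 : q * B * (e k + 2) = B * ((e k + 1) * q) + q * B := by ring
              have h4 : q * B ≤ 2 * q ^ 2 * B := by
                have : q ≤ 2 * q ^ 2 := by nlinarith
                exact Nat.mul_le_mul_right _ this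
              have h5 : B * ((e k + 1) * q) ≤ B * ((e k + 1) * q + 1) :=
                Nat.mul_le_mul_left _ (by omega)
              omega
            have h3 : H ^ (q * B * (e k + 2)) ≤ H ^ (B * (m + 1) + (2 * q ^ 2 * B + q)) :=
              pow_le_pow_right₀ hH1 h2
            gcongr

end Pool.Agent.Y897.ST
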