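import Mathlib
import Pool.Agent.Y897.ST.Up
import Pool.Agent.Y897.ST.NearPow

set_option autoImplicit false

namespace Pool.Agent.Y897.ST

open Polynomial Pool.Agent.Helper35

variable {e V Mq : ℕ → ℕ} (X : SData e V Mq)

theorem bound_root (q B : ℕ) (hq : 1 ≤ q) (hB : 40 * q ≤ B)
    (hgood : ∀ k, e k ≠ 0 → Nat.Coprime q (EA k) ∧ Nat.Coprime q (e k + 1)) (hM : Demand e Mq)
    (hV : ∀ j, 22 ≤ V j) (hVe : ∀ j, V j = q * B * (j + 2)) (ζ : ℝ) (hζ0 : 0 ≤ ζ) (hζ1 : ζ ≤ 1)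
    (hζ : ζ ^ q = X.ξ) (n : ℕ) :
    ∃ c : ℝ, 0 < c ∧ ∀ P : ℤ[X], P ≠ 0 → P.natDegree ≤ n →
      c ≤ |aeval ζ P| * (ht P : ℝ) ^ (B * (n + 1) + (2 * q ^ 2 * B + q + 1)) := by
  apply general_bound
  intro m hm hmn
  obtain ⟨c, hc, hcc⟩ := root_irr X q B hq hB hgood hM hV hVe ζ hζ0 hζ1 hζ m hm
  refine ⟨⌈1 / c⌉₊, fun P hP hPd hH => ?_⟩
  have hP0 := hP.ne_zero
  have hcont := P.eq_C_content_mul_primPart
  have hc0 : P.content ≠ 0 := by rwa [Ne, content_eq_zero_iff]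
  have hRi : Irreducible P.primPart := by
    rw [IsPrimitive.Int.irreducible_iff_irreducible_map_cast P.isPrimitive_primPart]
    have h1 : P.map (Int.castRingHom ℚ) =
        P.primPart.map (Int.castRingHom ℚ) * C ((P.content : ℤ) : ℚ) := by
      conv_lhs => rw [hcont]
      rw [Polynomial.map_mul, map_C, mul_comm]
      rfl
    have h2 : IsUnit (C ((P.content : ℤ) : ℚ)) :=
      isUnit_C.mpr (isUnit_iff_ne_zero.mpr (by exact_mod_cast hc0))
    have h3 : Irreducible (P.primPart.map (Int.castRingHom ℚ) * C ((P.content : ℤ) : ℚ)) := by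
      rw [← h1]; exact hP
    exact (associated_mul_unit_right (P.primPart.map (Int.castRingHom ℚ)) _ h2).symm.irreducible h3
  have h1 := hcc P.primPart hRi (by rw [natDegree_primPart, hPd])
  have hht : (ht P.primPart : ℝ) ≤ ht P := by
    have h2 : ht P = P.content.natAbs * ht P.primPart := by
      conv_lhs => rw [hcont]
      exact ht_intCast_mul _ _
    have h3 : ht P.primPart ≤ ht P := by
      rw [h2]
      exact Nat.le_mul_of_pos_left _ (Int.natAbs_pos.mpr hc0)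
    exact_mod_cast h3
  have hval : |aeval ζ P.primPart| ≤ |aeval ζ P| := by
    have h2 : aeval ζ P = (P.content : ℝ) * aeval ζ P.primPart := by
      conv_lhs => rw [hcont]
      rw [map_mul, aeval_C]
      rfl
    rw [h2, abs_mul]
    have h3 : (1 : ℝ) ≤ |(P.content : ℝ)| := by exact_mod_cast Int.one_le_abs hc0
    have h4 := abs_nonneg (aeval ζ P.primPart)
    nlinarith
  have hH1 : (1 : ℝ) ≤ ht P := by exact_mod_cast ht_pos hP0
  have hHc : 1 ≤ c * ht P := by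
    have h2 : 1 / c ≤ ht P := (Nat.le_ceil _).trans (by exact_mod_cast hH)
    rw [div_le_iff₀ hc] at h2
    linarith
  obtain ⟨E, hE⟩ : ∃ E : ℕ, E = B * (m + 1) + (2 * q ^ 2 * B + q) := ⟨_, rfl⟩
  rw [← hE] at h1
  calc (1 : ℝ) ≤ c * ht P := hHc
    _ ≤ (|aeval ζ P.primPart| * (ht P.primPart : ℝ) ^ E) * ht P := by gcongr
    _ ≤ (|aeval ζ P| * (ht P : ℝ) ^ E) * ht P := by gcongr
    _ = |aeval ζ P| * (ht P : ℝ) ^ (E + 1) := by ring
    _ ≤ _ := by
        have h2 : E + 1 ≤ B * (n + 1) + (2 * q ^ 2 * B + q + 1) := by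
          rw [hE]
          have : B * (m + 1) ≤ B * (n + 1) := Nat.mul_le_mul_left _ (by omega)
          omega
        have h3 : (ht P : ℝ) ^ (E + 1) ≤ (ht P : ℝ) ^ (B * (n + 1) + (2 * q ^ 2 * B + q + 1)) :=
          pow_le_pow_right₀ hH1 h2
        gcongr

theorem near_root (q B : ℕ) (hq : 1 ≤ q) (hM : Demand e Mq) (hV : ∀ j, 22 ≤ V j) (j : ℕ)
    (hVe : V j = q * B * (j + 2))
    (hj : ∀ K : ℕ, ∃ k, K ≤ k ∧ e k = j ∧ Nat.Coprime q (EA k) ∧ Nat.Coprime q (e k + 1))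
    (ζ : ℝ) (hζ0 : 0 < ζ) (hζ : ζ ^ q = X.ξ) :
    Near ζ (q * (j + 1)) (B * (q * (j + 1) + 1)) := by
  have hξ0 : 0 < X.ξ := by rw [← hζ]; positivity
  have hCh := SData.Ch_one_le j
  have hw0 : 0 ≤ 2 / ζ ^ (q - 1) := by positivity
  refine ⟨SData.Ch j + 2 / ζ ^ (q - 1), by linarith, fun K => ?_⟩
  obtain ⟨K0, hK0⟩ := exists_nat_gt (2 / X.ξ)
  obtain ⟨k, hkK, hek, hg1, hg2⟩ := hj (K + K0 + 1)
  have hN1 := X.N_one_le k
  have hkN : (k : ℝ) ≤ X.N k := by exact_mod_cast X.k_le_N hM k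
  have hkr : (K : ℝ) + K0 + 1 ≤ k := by exact_mod_cast hkK
  have hKr : (0 : ℝ) ≤ K := Nat.cast_nonneg _
  have hK0r : (0 : ℝ) ≤ K0 := Nat.cast_nonneg _
  have h1 := X.lo' k
  have h2 := X.hi' k
  have h3 := X.r_pos k
  -- positivity of the approximant
  have hαpos : 0 < X.α k := by
    have h4 : X.r k ≤ 1 / (X.N k : ℝ) := by
      unfold SData.r
      apply one_div_le_one_div_of_le (by linarith)
      exact le_self_pow₀ hN1 (SData.dV_ne hV k)
    have h5 : 2 * (1 / (X.N k : ℝ)) < X.ξ := by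
      rw [mul_one_div, div_lt_iff₀ (by linarith)]
      rw [div_lt_iff₀ hξ0] at hK0
      calc 2 < (K0 : ℝ) * X.ξ := hK0
        _ ≤ (X.N k : ℝ) * X.ξ := mul_le_mul_of_nonneg_right (by linarith) hξ0.le
        _ = _ := mul_comm _ _
    linarith
  obtain ⟨γ, hγ⟩ : ∃ γ : ℝ, γ = X.α k ^ ((q : ℝ)⁻¹) := ⟨_, rfl⟩
  have hγ0 : 0 < γ := by rw [hγ]; exact Real.rpow_pos_of_pos hαpos _
  have hγq : γ ^ q = X.α k := by rw [hγ]; exact Real.rpow_inv_natCast_pow hαpos.le (by omega)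
  obtain ⟨hirr, hprim, hdegS, _, hroot⟩ := X.S_props k
  have hTi := expand_irred X q hq k hg1 hg2
  have hTp := expand_prim q hq (X.S k) hprim
  have hTd : (expand ℤ q (X.S k)).natDegree = q * (j + 1) := by
    rw [natDegree_expand, hdegS, hek, mul_comm]
  have hTr : aeval γ (expand ℤ q (X.S k)) = 0 := by rw [expand_aeval, hγq, hroot]
  have hTh : ht (expand ℤ q (X.S k)) = ht (X.S k) := ht_expandq q hq _
  obtain ⟨P, hP, hPd, hPh⟩ : ∃ P : ℤ[X], IsMinZ P γ ∧ P.natDegree = q * (j + 1) ∧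
      ht P = ht (X.S k) := by
    by_cases hl : 0 < (expand ℤ q (X.S k)).leadingCoeff
    · exact ⟨_, ⟨hTi, hTp, hl, hTr⟩, hTd, hTh⟩
    · have hl2 : (expand ℤ q (X.S k)).leadingCoeff < 0 := by
        have := leadingCoeff_ne_zero.mpr hTi.ne_zero
        omega
      refine ⟨-(expand ℤ q (X.S k)),
        ⟨(Associated.refl (expand ℤ q (X.S k))).neg_right.irreducible hTi, ?_, ?_, ?_⟩, ?_, ?_⟩
      · intro r hr
        apply hTp r
        rwa [dvd_neg] at hr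
      · rw [leadingCoeff_neg]; omega
      · rw [map_neg, hTr, neg_zero]
      · rw [natDegree_neg, hTd]
      · rw [SData.ht_neg, hTh]
  have hZ1 : (1 : ℝ) ≤ (X.N k : ℝ) ^ (j + 1) := one_le_pow₀ hN1
  have hNZ : (X.N k : ℝ) ≤ (X.N k : ℝ) ^ (j + 1) := le_self_pow₀ hN1 (by omega)
  have hup := X.ht_S_upper hV k
  rw [hek] at hup
  refine ⟨P, γ, (X.N k : ℝ) ^ (j + 1), by linarith, hZ1, hP, hPd.le, ?_, ?_, ?_⟩
  · rw [hPh]
    refine hup.trans ?_
    gcongr
    linarith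
  · apply abs_pos.mpr
    intro h0
    have h4 : ζ = γ := sub_eq_zero.mp h0
    rw [h4, hγq] at hζ
    linarith
  · -- the distance
    have hsum : ζ ^ (q - 1) ≤ ∑ i ∈ Finset.range q, ζ ^ i * γ ^ (q - 1 - i) := by
      have h4 : ζ ^ (q - 1) = ζ ^ (q - 1) * γ ^ (q - 1 - (q - 1)) := by
        rw [Nat.sub_self, pow_zero, mul_one]
      rw [h4]
      exact Finset.single_le_sum (f := fun i => ζ ^ i * γ ^ (q - 1 - i))
        (fun i _ => by positivity) (Finset.mem_range.mpr (by omega))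
    have hprod := geom_sum₂_mul ζ γ q
    rw [hζ, hγq] at hprod
    have hdist : ζ ^ (q - 1) * |ζ - γ| ≤ 2 * X.r k := by
      have h4 : (∑ i ∈ Finset.range q, ζ ^ i * γ ^ (q - 1 - i)) * |ζ - γ| = X.ξ - X.α k := by
        have h5 : 0 < ∑ i ∈ Finset.range q, ζ ^ i * γ ^ (q - 1 - i) :=
          lt_of_lt_of_le (by positivity) hsum
        have h6 := congrArg abs hprod
        rw [abs_mul, abs_of_pos h5, abs_of_pos (by linarith : 0 < X.ξ - X.α k)] at h6
        exact h6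
      calc ζ ^ (q - 1) * |ζ - γ| ≤
            (∑ i ∈ Finset.range q, ζ ^ i * γ ^ (q - 1 - i)) * |ζ - γ| := by gcongr
        _ = X.ξ - X.α k := h4
        _ ≤ 2 * X.r k := by linarith
    have hdist2 : |ζ - γ| ≤ 2 / ζ ^ (q - 1) * X.r k := by
      rw [div_mul_eq_mul_div, le_div_iff₀ (by positivity)]
      linarith
    have hr : X.r k * ((X.N k : ℝ) ^ (j + 1)) ^ V j = 1 := by
      unfold SData.r
      rw [hek, ← pow_mul, one_div, inv_mul_cancel₀ (by positivity)]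
    have hle : B * (q * (j + 1) + 1) ≤ V j := by
      rw [hVe]
      calc B * (q * (j + 1) + 1) ≤ B * (q * (j + 1) + q) := Nat.mul_le_mul_left _ (by omega)
        _ = q * B * (j + 2) := by ring
    calc |ζ - γ| * ((X.N k : ℝ) ^ (j + 1)) ^ (B * (q * (j + 1) + 1))
        ≤ (2 / ζ ^ (q - 1) * X.r k) * ((X.N k : ℝ) ^ (j + 1)) ^ V j := by
          have h4 := pow_le_pow_right₀ hZ1 hle
          gcongr
      _ = 2 / ζ ^ (q - 1) * (X.r k * ((X.N k : ℝ) ^ (j + 1)) ^ V j) := by ring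
      _ = 2 / ζ ^ (q - 1) := by rw [hr, mul_one]
      _ ≤ _ := by linarith

end Pool.Agent.Y897.ST
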